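import Mathlib
import Pool.Agent.Lib.SimpleSpectrum

/-!
# Sign changes of sequences cut into three blocks
-/

set_option autoImplicit false

namespace Pool.Agent.Quad4

open Pool.Agent.SignAlternation

/-- `x 0, …, x (n-1)` has `a` entries of strictly alternating signs. -/
def Blk (x : ℕ → ℝ) (n a : ℕ) : Prop := a = 0 ∨ Alt x n (a - 1)

lemma Blk.le {x : ℕ → ℝ} {n a : ℕ} (h : Blk x n a) : a ≤ n := by
  rcases h with h | h
  · omega
  · have := h.lt; omega

lemma Blk.eq_zero {x : ℕ → ℝ} {n a : ℕ} (h : Blk x n a) (h0 : ∀ i < n, x i = 0) : a = 0 := by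
  rcases h with h | h
  · exact h
  · exfalso
    obtain ⟨i, s, h1, h2, h3⟩ := h
    have hm := strict_of_step h1
    have hlt : i 0 < n := by
      rcases Nat.eq_zero_or_pos (a - 1) with h | h
      · rw [h] at h2; exact h2
      · exact lt_trans (hm 0 (a - 1) h le_rfl) h2
    have h4 := h3 0 (by omega)
    rw [h0 _ hlt] at h4
    simp at h4

lemma Blk.drop {x : ℕ → ℝ} {m z a : ℕ} (h : Blk x (m + z) a) : Blk x m (a - z) := by
  rcases h with h | h
  · left; omega
  · rcases Nat.eq_zero_or_pos (a - z) with h0 | h0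
    · left; exact h0
    · right
      refine alt_change_top (c' := x) (a := z) (fun _ _ => rfl) ?_
      have e : a - z - 1 + z = a - 1 := by omega
      rw [e]; exact h

lemma Blk.congr {x y : ℕ → ℝ} {n a : ℕ} (h : Blk x n a) (hxy : ∀ i < n, x i = y i) :
    Blk y n a := by
  rcases h with h | h
  · left; exact h
  · right; exact Alt.congr h hxy

lemma Blk.smul {x : ℕ → ℝ} {n a : ℕ} (h : Blk x n a) {c : ℝ} (hc : c ≠ 0) :
    Blk (fun i => c * x i) n a := by
  rcases h with h | h
  · left; exact h
  · right; exact Alt.smul h hc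

lemma blk_add_J {y : ℕ → ℝ} {q a b : ℕ} (ha : Blk y q a) (hb : Blk (J y) q b) :
    a + b ≤ q + 1 := by
  have h1 := ha.le
  have h2 := hb.le
  rcases ha with ha | ha
  · omega
  · rcases hb with hb | hb
    · omega
    · have := alt_add_alt_J ha hb
      omega

/-- Cutting a sequence into two pieces. -/
lemma blk_split {x y c : ℕ → ℝ} {m m' k : ℕ} (hx : ∀ i < m, c i = x i)
    (hy : ∀ i < m', c (m + i) = y i)
    (h : Alt c (m + m') k) : ∃ a b, Blk x m a ∧ Blk y m' b ∧ a + b = k + 1 := by
  classical
  obtain ⟨i, s, h1, h2, h3⟩ := h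
  have hm := strict_of_step h1
  have hlt' : ∀ j ≤ k, i j < m + m' := by
    intro j hj
    rcases Nat.lt_or_ge j k with h | h
    · exact lt_trans (hm j k h le_rfl) h2
    · have : j = k := by omega
      subst this; exact h2
  have hex : ∃ j, m ≤ i j ∨ k < j := ⟨k + 1, Or.inr (by omega)⟩
  obtain ⟨a, ha⟩ : ∃ a, a = Nat.find hex := ⟨_, rfl⟩
  have ha_spec := Nat.find_spec hex
  rw [← ha] at ha_spec
  have hak : a ≤ k + 1 := by rw [ha]; exact Nat.find_min' hex (Or.inr (by omega))
  have hlt : ∀ j < a, i j < m := by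
    intro j hj
    have := Nat.find_min hex (by rw [← ha]; exact hj)
    push Not at this
    exact this.1
  refine ⟨a, k + 1 - a, ?_, ?_, by omega⟩
  · rcases Nat.eq_zero_or_pos a with h | h
    · left; exact h
    · right
      refine ⟨i, s, fun j hj => h1 j (by omega), hlt (a - 1) (by omega), ?_⟩
      intro j hj
      rw [← hx _ (hlt j (by omega))]
      exact h3 j (by omega)
  · rcases Nat.lt_or_ge k a with h | h
    · left; omega
    · right
      have ha1 : m ≤ i a := by
        rcases ha_spec with h' | h'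
        · exact h'
        · exfalso; omega
      have hge : ∀ j, a + j ≤ k → m ≤ i (a + j) := by
        intro j hj
        rcases Nat.eq_zero_or_pos j with rfl | h
        · simpa using ha1
        · have := hm a (a + j) (by omega) hj; omega
      refine ⟨fun j => i (a + j) - m, s * (-1) ^ a, ?_, ?_, ?_⟩
      · intro j hj
        have h4 := h1 (a + j) (by omega)
        have h5 := hge j (by omega)
        have e1 : a + (j + 1) = a + j + 1 := by ring
        simp only [e1]
        omega
      · have e1 : a + (k + 1 - a - 1) = k := by omega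
        simp only [e1]
        have h5 := hge (k - a) (by omega)
        have e2 : a + (k - a) = k := by omega
        rw [e2] at h5
        omega
      · intro j hj
        have h5 := hge j (by omega)
        have h6 := hlt' (a + j) (by omega)
        have h7 := h3 (a + j) (by omega)
        have h8 := hy (i (a + j) - m) (by omega)
        have e2 : m + (i (a + j) - m) = i (a + j) := by omega
        rw [e2] at h8
        rw [h8, pow_add] at h7
        calc 0 < s * ((-1) ^ a * (-1) ^ j) * y (i (a + j) - m) := h7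
          _ = _ := by ring

lemma J_shift (c : ℕ → ℝ) (m : ℕ) :
    (fun i => J c (m + i)) = fun i => (-1) ^ m * J (fun j => c (m + j)) i := by
  funext i
  simp only [J, pow_add]
  ring

/-- The last block is nonzero. -/
lemma last_ne_zero {c : ℕ → ℝ} {m q k : ℕ} (h : Alt c (m + q) k) (hk : m ≤ k) :
    ∃ i < q, c (m + i) ≠ 0 := by
  by_contra hcon
  push Not at hcon
  obtain ⟨a, b, h1, h2, h3⟩ := blk_split (x := c) (y := fun i => c (m + i)) (m := m) (m' := q)
    (fun _ _ => rfl) (fun _ _ => rfl) h
  have h4 := h1.le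
  have h5 := h2.eq_zero hcon
  omega

/-- The basic inequality. -/
theorem core_ineq {m z q du dw : ℕ} {c c' : ℕ → ℝ} (hc : Alt c (m + z + q) du)
    (hc' : Alt (J c') (m + z + q) dw) (hy : ∀ i < q, c (m + z + i) = c' (m + z + i))
    (hsum : m + q + 2 * z ≤ du + dw) :
    ∃ k l, Alt c m k ∧ Alt (J c') m l ∧ m ≤ k + l + 1 := by
  obtain ⟨a, b, h1, h2, h3⟩ := blk_split (x := c) (y := fun i => c (m + z + i)) (m := m + z)
    (m' := q) (fun _ _ => rfl) (fun _ _ => rfl) hc
  obtain ⟨a', b', h1', h2', h3'⟩ := blk_split (x := J c') (y := fun i => J c' (m + z + i))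
    (m := m + z) (m' := q) (fun _ _ => rfl) (fun _ _ => rfl) hc'
  have h4 : Blk (J (fun i => c (m + z + i))) q b' := by
    rw [J_shift] at h2'
    have h5 := h2'.smul (c := ((-1 : ℝ)) ^ (m + z)) (pow_ne_zero _ (by norm_num))
    refine h5.congr fun i hi => ?_
    simp only [J]
    rw [hy i hi, ← mul_assoc, ← mul_assoc]
    have : ((-1 : ℝ) ^ (m + z)) * ((-1) ^ (m + z)) = 1 := by
      rw [← pow_add, ← two_mul, pow_mul]; simp
    rw [this, one_mul]
  have h5 := blk_add_J h2 h4
  have h6 := h1.drop
  have h7 := h1'.drop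
  have h8 := h6.le
  have h9 := h7.le
  refine ⟨a - z - 1, a' - z - 1, ?_, ?_, by omega⟩
  · rcases h6 with h | h
    · exfalso; omega
    · exact h
  · rcases h7 with h | h
    · exfalso; omega
    · exact h

end Pool.Agent.Quad4
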