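import Mathlib
import Pool.Agent.Lib.SecantPosition
import Pool.Agent.Lib.SecantQuadruple
import Pool.Agent.Lib.QuadrupleSubspaces
import Pool.Agent.Secant6.StepVD

/-!
# Coordinates attached to two secant flags
-/

set_option autoImplicit false

namespace Pool.Agent.Quad4

open Module Polynomial Pool.Agent.SignAlternation Pool.Agent.Quadruple
open Pool.Agent.SecantPosition hiding pair
open Finset (range mem_range)

/-! ### Sign changes forced by roots -/

lemma exists_factor_roots {f : ℝ[X]} (hf : f ≠ 0) {n d : ℕ} (u : ℕ → ℝ)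
    (hu : ∀ i < d, ∀ j < d, u i = u j → i = j) (hroot : ∀ j < d, f.eval (u j) = 0)
    (hdeg : f.degree < n) :
    ∃ (N : ℕ) (h : ℝ[X]), n = N + d ∧ h ≠ 0 ∧ h.degree < N ∧
      (∏ j ∈ range d, (X - C (u j))) * h = f := by
  have hdvd : (∏ j ∈ range d, (X - C (u j))) ∣ f := by
    refine Finset.prod_dvd_of_coprime ?_ ?_
    · intro i hi j hj hij
      refine Polynomial.isCoprime_X_sub_C_of_isUnit_sub ?_
      rw [isUnit_iff_ne_zero, sub_ne_zero]
      exact fun h => hij (hu i (Finset.mem_coe.mp hi |> mem_range.mp) j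
        (Finset.mem_coe.mp hj |> mem_range.mp) h)
    · intro i hi
      exact Polynomial.dvd_iff_isRoot.mpr (hroot i (mem_range.mp hi))
  obtain ⟨h, hh⟩ := hdvd
  have hh0 : h ≠ 0 := by rintro rfl; rw [mul_zero] at hh; exact hf hh
  have h1 : (∏ j ∈ range d, (X - C (u j))).degree = (d : WithBot ℕ) := by
    rw [Polynomial.degree_prod]; simp
  rw [hh, Polynomial.degree_mul, h1, Polynomial.degree_eq_natDegree hh0] at hdeg
  have h2 : d + h.natDegree < n := by exact_mod_cast hdeg
  refine ⟨n - d, h, by omega, hh0, ?_, hh.symm⟩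
  rw [Polynomial.degree_eq_natDegree hh0]
  have h3 : h.natDegree < n - d := by omega
  exact_mod_cast h3

/-- `U` lies between `S` and `T`. -/
def Inner (S T U : ℕ → ℝ) : Prop :=
  ∀ k l j, 0 < (S k - U j) / (S k - T l) ∧ 0 < (U j - T l) / (S k - T l)

/-- `W` lies beyond `S`, seen from `T`. -/
def Beyond (S T W : ℕ → ℝ) : Prop :=
  ∀ k l j, 0 < (-1 : ℝ) * ((S k - W j) / (S k - T l)) ∧ 0 < (W j - T l) / (S k - T l)

/-- `W` lies outside of `S` and `T`. -/
def Outer (S T W : ℕ → ℝ) : Prop := Beyond S T W ∨ Beyond T S W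

lemma poly_ne_zero {S T : ℕ → ℝ} (hST : ∀ k l, S k ≠ T l) {n : ℕ} {c : ℕ → ℝ}
    (hc : ∃ i < n, c i ≠ 0) : (∑ i ∈ range n, C (c i) * bern S T n i) ≠ 0 := by
  intro h0
  obtain ⟨i, hi, hne⟩ := hc
  exact hne (bern_indep S n T hST c h0 i hi)

lemma alt_inner {S T U : ℕ → ℝ} (hST : ∀ k l, S k ≠ T l) (hU : Inner S T U) {n d : ℕ}
    (hinj : ∀ i < d, ∀ j < d, U i = U j → i = j) {c : ℕ → ℝ} (hc : ∃ i < n, c i ≠ 0)
    (hroot : ∀ j < d, (∑ i ∈ range n, C (c i) * bern S T n i).eval (U j) = 0) :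
    Alt c n d := by
  obtain ⟨N, h, hn, hh0, hhdeg, hh⟩ := exists_factor_roots (poly_ne_zero hST hc) U hinj hroot
    (degree_sum_bern_lt S T c)
  subst hn
  have h1 := alt_of_roots (σ := 1) (by norm_num) hST U N h hh0 hhdeg d
    (fun j _ k l => by rw [one_mul]; exact (hU k l j).1) (fun j _ k l => (hU k l j).2) c hh
  refine h1.congr fun i _ => ?_
  simp

lemma alt_beyond {S T W : ℕ → ℝ} (hST : ∀ k l, S k ≠ T l) (hW : Beyond S T W) {n d : ℕ}
    (hinj : ∀ i < d, ∀ j < d, W i = W j → i = j) {c : ℕ → ℝ} (hc : ∃ i < n, c i ≠ 0)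
    (hroot : ∀ j < d, (∑ i ∈ range n, C (c i) * bern S T n i).eval (W j) = 0) :
    Alt (J c) n d := by
  obtain ⟨N, h, hn, hh0, hhdeg, hh⟩ := exists_factor_roots (poly_ne_zero hST hc) W hinj hroot
    (degree_sum_bern_lt S T c)
  subst hn
  exact alt_of_roots (σ := -1) (by norm_num) hST W N h hh0 hhdeg d
    (fun j _ k l => (hW k l j).1) (fun j _ k l => (hW k l j).2) c hh

lemma bern_swap (S T : ℕ → ℝ) {n i : ℕ} (hi : i < n) :
    bern T S n (n - 1 - i) = C ((-1) ^ (n - 1)) * bern S T n i := by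
  unfold bern
  have e1 : n - 1 - (n - 1 - i) = i := by omega
  rw [e1]
  have h1 : (∏ l ∈ range i, (C (T l) - X)) = C ((-1) ^ i) * ∏ l ∈ range i, (X - C (T l)) := by
    have : ∀ l ∈ range i, (C (T l) - X : ℝ[X]) = (-1) * (X - C (T l)) := fun l _ => by ring
    rw [Finset.prod_congr rfl this, Finset.prod_mul_distrib]
    simp
  have h2 : (∏ l ∈ range (n - 1 - i), (C (S l) - X)) =
      C ((-1) ^ (n - 1 - i)) * ∏ l ∈ range (n - 1 - i), (X - C (S l)) := by
    have : ∀ l ∈ range (n - 1 - i), (C (S l) - X : ℝ[X]) = (-1) * (X - C (S l)) :=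
      fun l _ => by ring
    rw [Finset.prod_congr rfl this, Finset.prod_mul_distrib]
    simp
  have h3 : ((-1 : ℝ)) ^ (n - 1) * (-1) ^ (n - 1 - i) = (-1) ^ i := by
    have e : (-1 : ℝ) ^ (n - 1) = (-1) ^ i * (-1) ^ (n - 1 - i) := by
      rw [← pow_add]; congr 1; omega
    rw [e, mul_assoc, ← pow_add, ← two_mul, pow_mul]
    simp
  rw [h1, h2]
  calc C ((-1) ^ i) * (∏ l ∈ range i, (X - C (T l))) * ∏ l ∈ range (n - 1 - i), (X - C (S l))
      = C ((-1 : ℝ) ^ i) * ((∏ l ∈ range i, (X - C (T l))) *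
          ∏ l ∈ range (n - 1 - i), (X - C (S l))) := by ring
    _ = C ((-1 : ℝ) ^ (n - 1) * (-1) ^ (n - 1 - i)) * ((∏ l ∈ range i, (X - C (T l))) *
          ∏ l ∈ range (n - 1 - i), (X - C (S l))) := by rw [h3]
    _ = _ := by rw [C_mul]; ring

lemma alt_outer {S T W : ℕ → ℝ} (hST : ∀ k l, S k ≠ T l) (hW : Outer S T W) {n d : ℕ}
    (hinj : ∀ i < d, ∀ j < d, W i = W j → i = j) {c : ℕ → ℝ} (hc : ∃ i < n, c i ≠ 0)
    (hroot : ∀ j < d, (∑ i ∈ range n, C (c i) * bern S T n i).eval (W j) = 0) :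
    Alt (J c) n d := by
  rcases hW with hW | hW
  · exact alt_beyond hST hW hinj hc hroot
  · obtain ⟨i0, hi0, hne0⟩ := hc
    have hsum : (∑ i ∈ range n, C ((fun i => c (n - 1 - i)) i) * bern T S n i) =
        C ((-1) ^ (n - 1)) * ∑ i ∈ range n, C (c i) * bern S T n i := by
      rw [← Finset.sum_range_reflect, Finset.mul_sum]
      refine Finset.sum_congr rfl fun i hi => ?_
      have hi' := mem_range.mp hi
      have e1 : n - 1 - (n - 1 - i) = i := by omega
      simp only [e1]
      rw [bern_swap S T hi']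
      ring
    have h1 := alt_beyond (S := T) (T := S) (fun k l => (hST l k).symm) hW hinj
      (n := n) (c := fun i => c (n - 1 - i))
      ⟨n - 1 - i0, by omega, by
        have e1 : n - 1 - (n - 1 - i0) = i0 := by omega
        simp only [e1]; exact hne0⟩
      (fun j hj => by rw [hsum, eval_mul, hroot j hj, mul_zero])
    have h2 := Pool.Agent.Secant6.alt_reverse h1
    have h3 := h2.smul (c := (-1 : ℝ) ^ (n - 1)) (pow_ne_zero _ (by norm_num))
    refine h3.congr fun i hi => ?_
    simp only [J]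
    have e1 : n - 1 - (n - 1 - i) = i := by omega
    rw [e1, ← mul_assoc]
    congr 1
    have e : (-1 : ℝ) ^ (n - 1) = (-1) ^ i * (-1) ^ (n - 1 - i) := by
      rw [← pow_add]; congr 1; omega
    rw [e, mul_assoc, ← pow_add, ← two_mul, pow_mul]
    simp

/-! ### Sequences with a gap -/

/-- the index of the basis function -/
def kap (M g i : ℕ) : ℕ := if i < M then i else i + g

/-- the sign attached to an index -/
noncomputable def eps (M : ℕ) (e : ℝ) (i : ℕ) : ℝ := if i < M then 1 else e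

/-- the sequence with a gap of length `g` after position `M`, the tail multiplied by `e` -/
noncomputable def hat (M g : ℕ) (e : ℝ) (c : ℕ → ℝ) : ℕ → ℝ :=
  fun i => if i < M then c i else if i < M + g then 0 else e * c (i - g)

lemma sum_hat {R : Type*} [CommRing R] (M g q : ℕ) (e : ℝ) (c : ℕ → ℝ) (ι : ℝ →+* R) (B : ℕ → R) :
    ∑ i ∈ range (M + q + g), ι (hat M g e c i) * B i =
      ∑ i ∈ range (M + q), ι (eps M e i * c i) * B (kap M g i) := by
  have e0 : M + q + g = M + (g + q) := by ring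
  rw [e0, Finset.sum_range_add, Finset.sum_range_add, Finset.sum_range_add]
  have h1 : ∑ i ∈ range M, ι (hat M g e c i) * B i =
      ∑ i ∈ range M, ι (eps M e i * c i) * B (kap M g i) := by
    refine Finset.sum_congr rfl fun i hi => ?_
    have hi' := mem_range.mp hi
    simp only [hat, eps, kap, if_pos hi', one_mul]
  have h2 : ∑ i ∈ range g, ι (hat M g e c (M + i)) * B (M + i) = 0 := by
    refine Finset.sum_eq_zero fun i hi => ?_
    have hi' := mem_range.mp hi
    simp only [hat]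
    rw [if_neg (by omega), if_pos (by omega), map_zero, zero_mul]
  have h3 : ∑ i ∈ range q, ι (hat M g e c (M + (g + i))) * B (M + (g + i)) =
      ∑ i ∈ range q, ι (eps M e (M + i) * c (M + i)) * B (kap M g (M + i)) := by
    refine Finset.sum_congr rfl fun i _ => ?_
    simp only [hat, eps, kap]
    rw [if_neg (by omega), if_neg (by omega), if_neg (by omega), if_neg (by omega)]
    have e1 : M + (g + i) - g = M + i := by omega
    have e2 : M + (g + i) = M + i + g := by ring
    rw [e1, e2]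
  rw [h1, h2, h3, zero_add]

lemma hat_ne {M g q : ℕ} {e : ℝ} (he : e ≠ 0) {c : ℕ → ℝ} (hc : ∃ i < M + q, c i ≠ 0) :
    ∃ i < M + q + g, hat M g e c i ≠ 0 := by
  obtain ⟨i, hi, hne⟩ := hc
  by_cases h : i < M
  · exact ⟨i, by omega, by simp only [hat, if_pos h]; exact hne⟩
  · refine ⟨i + g, by omega, ?_⟩
    simp only [hat]
    rw [if_neg (by omega), if_neg (by omega), Nat.add_sub_cancel]
    exact mul_ne_zero he hne

lemma alt_hat {M g q k : ℕ} {c : ℕ → ℝ} (h : Alt (hat M g 1 c) (M + q + g) k) :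
    Alt c (M + q) k := by
  refine Pool.Agent.Secant6.alt_remove (c := hat M g 1 c) (n := M) (d := g) ?_ ?_ ?_ h (by omega)
  · intro i h1 h2
    simp only [hat]
    rw [if_neg (by omega), if_pos h2]
  · intro i h1
    simp only [hat, if_pos h1]
  · intro i h1
    simp only [hat]
    rw [if_neg (by omega), if_neg (by omega), Nat.add_sub_cancel, one_mul]

lemma alt_J_hat {M g q k : ℕ} {c : ℕ → ℝ}
    (h : Alt (J (hat M g ((-1) ^ g) c)) (M + q + g) k) : Alt (J c) (M + q) k := by
  refine Pool.Agent.Secant6.alt_remove (c := J (hat M g ((-1) ^ g) c)) (n := M) (d := g)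
    ?_ ?_ ?_ h (by omega)
  · intro i h1 h2
    simp only [J, hat]
    rw [if_neg (by omega), if_pos h2, mul_zero]
  · intro i h1
    simp only [J, hat, if_pos h1]
  · intro i h1
    simp only [J, hat]
    rw [if_neg (by omega), if_neg (by omega), Nat.add_sub_cancel, ← mul_assoc]
    congr 1
    rw [pow_add, mul_assoc, ← pow_add, ← two_mul, pow_mul]
    simp

/-! ### The spaces of functionals -/

/-- the functionals vanishing at `U 0, …, U (d-1)` -/
noncomputable def Esp (S T : ℕ → ℝ) (n N M g : ℕ) (e : ℝ) (U : ℕ → ℝ) (d : ℕ) :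
    Submodule ℝ (Fin N → ℝ) :=
  LinearMap.ker (Matrix.mulVecLin (Matrix.of fun (j : Fin d) (i : Fin N) =>
    eps M e i * (bern S T n (kap M g i)).eval (U j)))

lemma mem_Esp {S T : ℕ → ℝ} {n N M g : ℕ} {e : ℝ} {U : ℕ → ℝ} {d : ℕ} {c : Fin N → ℝ} :
    c ∈ Esp S T n N M g e U d ↔ ∀ j < d,
      ∑ i ∈ range N, eps M e i * ext c i * (bern S T n (kap M g i)).eval (U j) = 0 := by
  rw [Esp, LinearMap.mem_ker]
  constructor
  · intro h j hj
    have h1 := congrFun h ⟨j, hj⟩
    rw [Matrix.mulVecLin_apply, Matrix.mulVec, dotProduct] at h1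
    rw [Finset.sum_range]
    refine Eq.trans (Finset.sum_congr rfl fun i _ => ?_) h1
    rw [ext_lt c i.2]
    simp only [Matrix.of_apply]
    ring
  · intro h
    funext j
    rw [Matrix.mulVecLin_apply, Matrix.mulVec, dotProduct]
    have h1 := h j j.2
    rw [Finset.sum_range] at h1
    refine Eq.trans (Finset.sum_congr rfl fun i _ => ?_) h1
    rw [ext_lt c i.2]
    simp only [Matrix.of_apply]
    ring

lemma finrank_Esp (S T : ℕ → ℝ) (n N M g : ℕ) (e : ℝ) (U : ℕ → ℝ) (d : ℕ) :
    N ≤ finrank ℝ (Esp S T n N M g e U d) + d := by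
  have h1 := LinearMap.finrank_range_add_finrank_ker
    (Matrix.mulVecLin (Matrix.of fun (j : Fin d) (i : Fin N) =>
      eps M e i * (bern S T n (kap M g i)).eval (U j)))
  have h2 := Submodule.finrank_le (LinearMap.range
    (Matrix.mulVecLin (Matrix.of fun (j : Fin d) (i : Fin N) =>
      eps M e i * (bern S T n (kap M g i)).eval (U j))))
  simp only [finrank_fintype_fun_eq_card, Fintype.card_fin] at h1 h2
  rw [Esp]
  omega

lemma Esp_eval {S T : ℕ → ℝ} {M g q : ℕ} {e : ℝ} {U : ℕ → ℝ} {d : ℕ} {c : Fin (M + q) → ℝ}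
    (hc : c ∈ Esp S T (M + q + g) (M + q) M g e U d) {j : ℕ} (hj : j < d) :
    (∑ i ∈ range (M + q + g), C (hat M g e (ext c) i) * bern S T (M + q + g) i).eval (U j) = 0 := by
  rw [sum_hat M g q e (ext c) (C : ℝ →+* ℝ[X]) (fun i => bern S T (M + q + g) i)]
  rw [eval_finsetSum]
  refine Eq.trans (Finset.sum_congr rfl fun i _ => ?_) (mem_Esp.mp hc j hj)
  rw [eval_mul, eval_C]

lemma exists_ext_ne {N : ℕ} {c : Fin N → ℝ} (hc : c ≠ 0) : ∃ i < N, ext c i ≠ 0 := by
  by_contra hcon
  push Not at hcon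
  apply hc
  funext i
  have := hcon i i.2
  rw [ext_lt c i.2] at this
  exact this

lemma Esp_alt_inner {S T U : ℕ → ℝ} (hST : ∀ k l, S k ≠ T l) (hU : Inner S T U) {M g q d : ℕ}
    (hinj : ∀ i < d, ∀ j < d, U i = U j → i = j) {c : Fin (M + q) → ℝ}
    (hc : c ∈ Esp S T (M + q + g) (M + q) M g 1 U d) (h0 : c ≠ 0) :
    Alt (ext c) (M + q) d :=
  alt_hat (alt_inner hST hU hinj (hat_ne one_ne_zero (exists_ext_ne h0))
    (fun _ hj => Esp_eval hc hj))

lemma Esp_alt_outer {S T W : ℕ → ℝ} (hST : ∀ k l, S k ≠ T l) (hW : Outer S T W) {M g q d : ℕ}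
    (hinj : ∀ i < d, ∀ j < d, W i = W j → i = j) {c : Fin (M + q) → ℝ}
    (hc : c ∈ Esp S T (M + q + g) (M + q) M g ((-1) ^ g) W d) (h0 : c ≠ 0) :
    Alt (J (ext c)) (M + q) d :=
  alt_J_hat (alt_outer hST hW hinj (hat_ne (pow_ne_zero _ (by norm_num)) (exists_ext_ne h0))
    (fun _ hj => Esp_eval hc hj))

/-! ### Coordinates of vectors -/

/-- pairing with a polynomial as a linear map -/
noncomputable def pairL (n : ℕ) (p : ℝ[X]) : (Fin n → ℂ) →ₗ[ℂ] ℂ where
  toFun v := SecantPosition.pair p v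
  map_add' v w := by
    simp only [SecantPosition.pair, Pi.add_apply, mul_add, Finset.sum_add_distrib]
  map_smul' c v := by
    simp only [SecantPosition.pair, Pi.smul_apply, smul_eq_mul, Finset.mul_sum, RingHom.id_apply]
    exact Finset.sum_congr rfl fun b _ => by ring

lemma pairL_apply {n : ℕ} (p : ℝ[X]) (v : Fin n → ℂ) : pairL n p v = SecantPosition.pair p v := rfl

lemma pairL_add {n : ℕ} (p p' : ℝ[X]) (v : Fin n → ℂ) :
    pairL n (p + p') v = pairL n p v + pairL n p' v := by
  simp only [pairL_apply, SecantPosition.pair, coeff_add, Complex.ofReal_add, add_mul,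
    Finset.sum_add_distrib]

lemma pairL_zero {n : ℕ} (v : Fin n → ℂ) : pairL n 0 v = 0 := by
  simp [pairL_apply, SecantPosition.pair]

lemma pairL_C_mul {n : ℕ} (c : ℝ) (p : ℝ[X]) (v : Fin n → ℂ) :
    pairL n (C c * p) v = (c : ℂ) * pairL n p v := by
  simp only [pairL_apply, SecantPosition.pair, coeff_C_mul, Complex.ofReal_mul, Finset.mul_sum]
  exact Finset.sum_congr rfl fun b _ => by ring

lemma pairL_sum {n : ℕ} {ι : Type*} (s : Finset ι) (p : ι → ℝ[X]) (v : Fin n → ℂ) :
    pairL n (∑ i ∈ s, p i) v = ∑ i ∈ s, pairL n (p i) v := by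
  classical
  induction s using Finset.induction_on with
  | empty => simp [pairL_zero]
  | insert a s ha ih => rw [Finset.sum_insert ha, Finset.sum_insert ha, pairL_add, ih]

lemma pairL_X_pow {n : ℕ} (b : Fin n) (v : Fin n → ℂ) : pairL n (X ^ (b : ℕ)) v = v b := by
  rw [pairL_apply, SecantPosition.pair, Finset.sum_eq_single b]
  · simp
  · intro a _ ha
    rw [coeff_X_pow, if_neg (fun h => ha (Fin.ext h))]
    simp
  · intro h; exact absurd (Finset.mem_univ b) h

lemma pairL_star {n : ℕ} (p : ℝ[X]) (v : Fin n → ℂ) : pairL n p (star v) = star (pairL n p v) := by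
  simp only [pairL_apply, SecantPosition.pair, Pi.star_apply, star_sum, star_mul',
    RCLike.star_def, Complex.conj_ofReal]

/-- full coordinates -/
noncomputable def Phi (S T : ℕ → ℝ) (n : ℕ) : (Fin n → ℂ) →ₗ[ℂ] (Fin n → ℂ) :=
  LinearMap.pi fun i : Fin n => pairL n (bern S T n i)

lemma Phi_apply (S T : ℕ → ℝ) (n : ℕ) (v : Fin n → ℂ) (i : Fin n) :
    Phi S T n v i = pairL n (bern S T n i) v := rfl

lemma Phi_star (S T : ℕ → ℝ) (n : ℕ) (v : Fin n → ℂ) : Phi S T n (star v) = star (Phi S T n v) := by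
  funext i
  rw [Phi_apply, pairL_star, Pi.star_apply, Phi_apply]

lemma eq_zero_of_bern {S T : ℕ → ℝ} (hST : ∀ k l, S k ≠ T l) {n : ℕ} {v : Fin n → ℂ}
    (h : ∀ i < n, pairL n (bern S T n i) v = 0) : v = 0 := by
  funext b
  obtain ⟨c, hc⟩ := bern_span S n T hST (X ^ (b : ℕ)) (by
    rw [degree_X_pow]; exact_mod_cast b.2)
  rw [← pairL_X_pow b v, hc, pairL_sum, Finset.sum_eq_zero]
  · rfl
  · intro i hi
    rw [pairL_C_mul, h i (mem_range.mp hi), mul_zero]

lemma Phi_injective {S T : ℕ → ℝ} (hST : ∀ k l, S k ≠ T l) (n : ℕ) :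
    Function.Injective (Phi S T n) := by
  rw [← LinearMap.ker_eq_bot, LinearMap.ker_eq_bot']
  intro v hv
  exact eq_zero_of_bern hST fun i hi => congrFun hv ⟨i, hi⟩

lemma Phi_surjective {S T : ℕ → ℝ} (hST : ∀ k l, S k ≠ T l) (n : ℕ) :
    Function.Surjective (Phi S T n) :=
  LinearMap.injective_iff_surjective.mp (Phi_injective hST n)

lemma natDegree_bern_lt (S T : ℕ → ℝ) {n i : ℕ} (hi : i < n) : (bern S T n i).natDegree < n := by
  have h1 := degree_bern_lt S T hi
  by_cases h0 : bern S T n i = 0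
  · rw [h0, natDegree_zero]; omega
  · rw [degree_eq_natDegree h0] at h1
    exact_mod_cast h1

/-- The member of dimension `d` of the first flag: the first `n - d` coordinates vanish. -/
lemma mem_first {S T : ℕ → ℝ} (hST : ∀ k l, S k ≠ T l) {n d : ℕ} (hd : d ≤ n) {t : Fin n → ℝ}
    (ht : Function.Injective t) (hS : ∀ a : Fin n, S a = t a) {v : Fin n → ℂ} :
    v ∈ sflag t d ↔ ∀ i : Fin n, (i : ℕ) < n - d → Phi S T n v i = 0 := by
  classical
  set A : Finset (Fin n) := Finset.univ.filter (fun i => ¬ (i : ℕ) < n - d) with hA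
  have hle : sflag t d ≤ (coordSub ℂ A).comap (Phi S T n) := by
    intro v hv i hi
    have hi' : (i : ℕ) < n - d := by
      by_contra h
      exact hi (by rw [hA, Finset.mem_filter]; exact ⟨Finset.mem_univ _, h⟩)
    rw [Phi_apply, pairL_apply]
    refine pair_sflag _ (natDegree_bern_lt S T i.2) t d (fun a ha => ?_) hv
    rw [bern, eval_mul, eval_prod]
    have h0 : ∏ l ∈ range (n - 1 - (i : ℕ)), (C (S l) - X).eval (t a) = 0 := by
      refine Finset.prod_eq_zero (i := (a : ℕ)) (mem_range.mpr (by omega)) ?_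
      rw [eval_sub, eval_C, eval_X, hS, sub_self]
    rw [h0, zero_mul]
  have hcard : A.card = d := by
    have h1 : A.card + (Finset.univ.filter (fun i : Fin n => (i : ℕ) < n - d)).card = n := by
      have := Finset.card_filter_add_card_filter_not (s := (Finset.univ : Finset (Fin n)))
        (fun i => (i : ℕ) < n - d)
      rw [Finset.card_univ, Fintype.card_fin] at this
      rw [hA]; omega
    have h2 : (Finset.univ.filter (fun i : Fin n => (i : ℕ) < n - d)).card = n - d := by
      rw [Fin.card_filter_val_lt]; omega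
    omega
  have hfr : finrank ℂ ↥((coordSub ℂ A).comap (Phi S T n)) = d := by
    have e := LinearEquiv.ofBijective (Phi S T n) ⟨Phi_injective hST n, Phi_surjective hST n⟩
    have h1 := Submodule.finrank_map_le (Phi S T n) ((coordSub ℂ A).comap (Phi S T n))
    have h2 : ((coordSub ℂ A).comap (Phi S T n)).map (Phi S T n) = coordSub ℂ A :=
      Submodule.map_comap_eq_of_surjective (Phi_surjective hST n) _
    have h3 := (Submodule.equivMapOfInjective (Phi S T n) (Phi_injective hST n)
      ((coordSub ℂ A).comap (Phi S T n))).finrank_eq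
    rw [h3, h2, finrank_coordSub, hcard]
  have heq := Submodule.eq_of_le_of_finrank_eq hle (by rw [hfr, finrank_sflag hd ht])
  rw [heq]
  constructor
  · intro h i hi
    refine h i ?_
    rw [hA, Finset.mem_filter]
    exact fun h2 => h2.2 hi
  · intro h i hi
    refine h i ?_
    by_contra h2
    exact hi (by rw [hA, Finset.mem_filter]; exact ⟨Finset.mem_univ _, h2⟩)

/-- The member of dimension `d` of the second flag: only the first `d` coordinates are nonzero. -/
lemma mem_second {S T : ℕ → ℝ} (hST : ∀ k l, S k ≠ T l) {n d : ℕ} (hd : d ≤ n) {t : Fin n → ℝ}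
    (ht : Function.Injective t) (hT : ∀ a : Fin n, T a = t a) {v : Fin n → ℂ} :
    v ∈ sflag t d ↔ ∀ i : Fin n, d ≤ (i : ℕ) → Phi S T n v i = 0 := by
  classical
  set A : Finset (Fin n) := Finset.univ.filter (fun i => (i : ℕ) < d) with hA
  have hle : sflag t d ≤ (coordSub ℂ A).comap (Phi S T n) := by
    intro v hv i hi
    have hi' : d ≤ (i : ℕ) := by
      by_contra h
      exact hi (by rw [hA, Finset.mem_filter]; exact ⟨Finset.mem_univ _, not_le.mp h⟩)
    rw [Phi_apply, pairL_apply]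
    refine pair_sflag _ (natDegree_bern_lt S T i.2) t d (fun a ha => ?_) hv
    rw [bern, eval_mul, eval_prod, eval_prod]
    have h0 : ∏ l ∈ range (i : ℕ), (X - C (T l)).eval (t a) = 0 := by
      refine Finset.prod_eq_zero (i := (a : ℕ)) (mem_range.mpr (by omega)) ?_
      rw [eval_sub, eval_C, eval_X, hT, sub_self]
    rw [h0, mul_zero]
  have hcard : A.card = d := by
    rw [hA, Fin.card_filter_val_lt]; omega
  have hfr : finrank ℂ ↥((coordSub ℂ A).comap (Phi S T n)) = d := by
    have h2 : ((coordSub ℂ A).comap (Phi S T n)).map (Phi S T n) = coordSub ℂ A :=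
      Submodule.map_comap_eq_of_surjective (Phi_surjective hST n) _
    have h3 := (Submodule.equivMapOfInjective (Phi S T n) (Phi_injective hST n)
      ((coordSub ℂ A).comap (Phi S T n))).finrank_eq
    rw [h3, h2, finrank_coordSub, hcard]
  have heq := Submodule.eq_of_le_of_finrank_eq hle (by rw [hfr, finrank_sflag hd ht])
  rw [heq]
  constructor
  · intro h i hi
    refine h i ?_
    rw [hA, Finset.mem_filter]
    exact fun h2 => absurd h2.2 (not_lt.mpr hi)
  · intro h i hi
    refine h i ?_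
    by_contra h2
    exact hi (by rw [hA, Finset.mem_filter]; exact ⟨Finset.mem_univ _, not_le.mp h2⟩)

end Pool.Agent.Quad4
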