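import Mathlib
import Pool.Agent.Lib.SecantQuadruple
import Pool.Agent.Quad4.Blocks

/-!
# The core operator of four subspaces

Two real spaces of functionals `Eu`, `Ew` on `ℝ^(m+z+q)` with many sign changes, and the linear
relation between the first `m` coordinates of pairs with equal last `q` coordinates.
-/

set_option autoImplicit false

namespace Pool.Agent.Quad4

open Module Pool.Agent.SignAlternation
open Matrix hiding J

/-- first `m` coordinates -/
def P1 (K : Type*) [Field K] (m z q : ℕ) : (Fin (m + z + q) → K) →ₗ[K] (Fin m → K) :=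
  LinearMap.funLeft K K (fun i => Fin.castAdd q (Fin.castAdd z i))

/-- middle `z` coordinates -/
def P2 (K : Type*) [Field K] (m z q : ℕ) : (Fin (m + z + q) → K) →ₗ[K] (Fin z → K) :=
  LinearMap.funLeft K K (fun i => Fin.castAdd q (Fin.natAdd m i))

/-- last `q` coordinates -/
def P3 (K : Type*) [Field K] (m z q : ℕ) : (Fin (m + z + q) → K) →ₗ[K] (Fin q → K) :=
  LinearMap.funLeft K K (fun i => Fin.natAdd (m + z) i)

section coords

variable {K : Type*} [Field K] {m z q : ℕ}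

@[simp] lemma P1_apply (v : Fin (m + z + q) → K) (i : Fin m) :
    P1 K m z q v i = v (Fin.castAdd q (Fin.castAdd z i)) := rfl

@[simp] lemma P2_apply (v : Fin (m + z + q) → K) (i : Fin z) :
    P2 K m z q v i = v (Fin.castAdd q (Fin.natAdd m i)) := rfl

@[simp] lemma P3_apply (v : Fin (m + z + q) → K) (i : Fin q) :
    P3 K m z q v i = v (Fin.natAdd (m + z) i) := rfl

lemma ext_of_P {v w : Fin (m + z + q) → K} (h1 : P1 K m z q v = P1 K m z q w)
    (h2 : P2 K m z q v = P2 K m z q w) (h3 : P3 K m z q v = P3 K m z q w) : v = w := by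
  funext i
  refine Fin.addCases (fun i => ?_) (fun i => ?_) i
  · refine Fin.addCases (fun i => ?_) (fun i => ?_) i
    · exact congrFun h1 i
    · exact congrFun h2 i
  · exact congrFun h3 i

lemma sum_P {M : Type*} [AddCommMonoid M] (f : Fin (m + z + q) → M) :
    ∑ i, f i = (∑ i : Fin m, f (Fin.castAdd q (Fin.castAdd z i))) +
      (∑ i : Fin z, f (Fin.castAdd q (Fin.natAdd m i))) + ∑ i : Fin q, f (Fin.natAdd (m + z) i) := by
  rw [Fin.sum_univ_add, Fin.sum_univ_add]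

end coords

section kernels

variable {K A C D : Type*} [Field K] [AddCommGroup A] [Module K A] [AddCommGroup C] [Module K C]
  [AddCommGroup D] [Module K D]

lemma ker_inj (f : A →ₗ[K] C) (g : ↥(LinearMap.ker f) →ₗ[K] D)
    (h : ∀ a, g a = 0 → a = 0) : Function.Injective g :=
  (injective_iff_map_eq_zero g).mpr h

/-- A linear equivalence from an injective map defined on a kernel. -/
noncomputable def kerEquiv [FiniteDimensional K A] [FiniteDimensional K D] (f : A →ₗ[K] C)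
    (g : ↥(LinearMap.ker f) →ₗ[K] D) (h : Function.Injective g)
    (hd : finrank K ↥(LinearMap.ker f) = finrank K D) : ↥(LinearMap.ker f) ≃ₗ[K] D :=
  LinearEquiv.ofInjectiveOfFinrankEq g h hd

lemma kerEquiv_apply [FiniteDimensional K A] [FiniteDimensional K D] (f : A →ₗ[K] C)
    (g : ↥(LinearMap.ker f) →ₗ[K] D) (h : Function.Injective g)
    (hd : finrank K ↥(LinearMap.ker f) = finrank K D) (a : ↥(LinearMap.ker f)) :
    kerEquiv f g h hd a = g a := rfl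

end kernels

/-- Input data. -/
structure Data (m z q du dw : ℕ) where
  Eu : Submodule ℝ (Fin (m + z + q) → ℝ)
  Ew : Submodule ℝ (Fin (m + z + q) → ℝ)
  hEu : m + z + q ≤ finrank ℝ Eu + du
  hEw : m + z + q ≤ finrank ℝ Ew + dw
  hu : m + z ≤ du
  hw : m + z ≤ dw
  hsum : du + dw = m + q + 2 * z
  altU : ∀ c ∈ Eu, c ≠ 0 → Alt (ext c) (m + z + q) du
  altW : ∀ c ∈ Ew, c ≠ 0 → Alt (J (ext c)) (m + z + q) dw

namespace Data

variable {m z q du dw : ℕ} (D : Data m z q du dw)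

/-- difference of the last coordinates -/
noncomputable def R : (D.Eu × D.Ew) →ₗ[ℝ] (Fin q → ℝ) :=
  (P3 ℝ m z q ∘ₗ D.Eu.subtype).coprod (-(P3 ℝ m z q ∘ₗ D.Ew.subtype))

lemma R_apply (c : D.Eu × D.Ew) :
    D.R c = P3 ℝ m z q (c.1 : Fin (m + z + q) → ℝ) - P3 ℝ m z q (c.2 : Fin (m + z + q) → ℝ) := by
  simp [R, sub_eq_add_neg]

lemma mem_ker {c : D.Eu × D.Ew} : c ∈ LinearMap.ker D.R ↔
    P3 ℝ m z q (c.1 : Fin (m + z + q) → ℝ) = P3 ℝ m z q (c.2 : Fin (m + z + q) → ℝ) := by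
  rw [LinearMap.mem_ker, R_apply, sub_eq_zero]

lemma ext_first (c : Fin (m + z + q) → ℝ) {i : ℕ} (hi : i < m) :
    ext c i = ext (P1 ℝ m z q c) i := by
  rw [ext_lt _ hi, ext_lt _ (by omega : i < m + z + q)]
  rfl

lemma ext_last (c : Fin (m + z + q) → ℝ) {i : ℕ} (hi : i < q) :
    ext c (m + z + i) = P3 ℝ m z q c ⟨i, hi⟩ := by
  rw [ext_lt _ (by omega : m + z + i < m + z + q)]
  rfl

lemma pair_ne {c : D.Eu × D.Ew} (hc : c ∈ LinearMap.ker D.R) (h0 : c ≠ 0) :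
    (c.1 : Fin (m + z + q) → ℝ) ≠ 0 ∧ (c.2 : Fin (m + z + q) → ℝ) ≠ 0 := by
  rw [mem_ker] at hc
  have key : (c.1 : Fin (m + z + q) → ℝ) = 0 ↔ (c.2 : Fin (m + z + q) → ℝ) = 0 := by
    constructor
    · intro h
      by_contra h2
      have h3 := D.altW _ c.2.2 h2
      obtain ⟨i, hi, hne⟩ := last_ne_zero h3 D.hw
      apply hne
      rw [h] at hc
      rw [J, ext_last _ hi, ← hc]
      simp
    · intro h
      by_contra h2
      have h3 := D.altU _ c.1.2 h2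
      obtain ⟨i, hi, hne⟩ := last_ne_zero h3 D.hu
      apply hne
      rw [h] at hc
      rw [ext_last _ hi, hc]
      simp
  by_contra hcon
  rw [not_and_or, not_not, not_not] at hcon
  apply h0
  rcases hcon with h | h
  · exact Prod.ext (Subtype.ext h) (Subtype.ext (key.mp h))
  · exact Prod.ext (Subtype.ext (key.mpr h)) (Subtype.ext h)

lemma pair_alt {c : D.Eu × D.Ew} (hc : c ∈ LinearMap.ker D.R) (h0 : c ≠ 0) :
    ∃ k l, Alt (ext (P1 ℝ m z q (c.1 : Fin (m + z + q) → ℝ))) m k ∧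
      Alt (J (ext (P1 ℝ m z q (c.2 : Fin (m + z + q) → ℝ)))) m l ∧ m ≤ k + l + 1 := by
  obtain ⟨h1, h2⟩ := D.pair_ne hc h0
  rw [mem_ker] at hc
  obtain ⟨k, l, h3, h4, h5⟩ := core_ineq (D.altU _ c.1.2 h1) (D.altW _ c.2.2 h2)
    (fun i hi => by rw [ext_last _ hi, ext_last _ hi, hc]) D.hsum.ge
  refine ⟨k, l, h3.congr fun i hi => ext_first _ hi, h4.congr fun i hi => ?_, h5⟩
  simp only [J]
  rw [ext_first _ hi]

/-- first coordinates of the first functional -/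
noncomputable def p1 : ↥(LinearMap.ker D.R) →ₗ[ℝ] (Fin m → ℝ) :=
  P1 ℝ m z q ∘ₗ D.Eu.subtype ∘ₗ LinearMap.fst ℝ _ _ ∘ₗ (LinearMap.ker D.R).subtype

/-- first coordinates of the second functional -/
noncomputable def p2 : ↥(LinearMap.ker D.R) →ₗ[ℝ] (Fin m → ℝ) :=
  P1 ℝ m z q ∘ₗ D.Ew.subtype ∘ₗ LinearMap.snd ℝ _ _ ∘ₗ (LinearMap.ker D.R).subtype

lemma p1_injective : Function.Injective D.p1 := by
  refine ker_inj D.R D.p1 ?_
  intro c hc
  by_contra h0
  have h0' : (c : D.Eu × D.Ew) ≠ 0 := fun h => h0 (Subtype.ext h)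
  obtain ⟨k, l, h1, h2, h3⟩ := D.pair_alt c.2 h0'
  have h4 : P1 ℝ m z q (((c : D.Eu × D.Ew).1 : Fin (m + z + q) → ℝ)) = 0 := hc
  rw [h4] at h1
  obtain ⟨i, s, h5, h6, h7⟩ := h1
  have h8 := h7 0 (by omega)
  have h9 : ext (0 : Fin m → ℝ) (i 0) = 0 := by
    by_cases h : i 0 < m
    · rw [ext_lt _ h]; rfl
    · rw [ext_ge _ (not_lt.mp h)]
  rw [h9] at h8
  simp at h8

lemma finrank_ker : finrank ℝ ↥(LinearMap.ker D.R) = m := by
  have h1 := LinearMap.finrank_range_add_finrank_ker D.R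
  have h2 : finrank ℝ ↥(LinearMap.range D.R) ≤ q := by
    have := Submodule.finrank_le (LinearMap.range D.R)
    simpa using this
  have h3 := LinearMap.finrank_le_finrank_of_injective D.p1_injective
  rw [finrank_prod] at h1
  simp only [finrank_fintype_fun_eq_card, Fintype.card_fin] at h3
  have := D.hEu
  have := D.hEw
  have := D.hsum
  omega

lemma R_surjective : Function.Surjective D.R := by
  rw [← LinearMap.range_eq_top]
  apply Submodule.eq_top_of_finrank_eq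
  have h1 := LinearMap.finrank_range_add_finrank_ker D.R
  rw [D.finrank_ker, finrank_prod] at h1
  have h2 : finrank ℝ ↥(LinearMap.range D.R) ≤ q := by
    have := Submodule.finrank_le (LinearMap.range D.R)
    simpa using this
  simp only [finrank_fintype_fun_eq_card, Fintype.card_fin]
  have := D.hEu
  have := D.hEw
  have := D.hsum
  omega

/-- pairs are parametrised by the first coordinates of the first functional -/
noncomputable def e1 : ↥(LinearMap.ker D.R) ≃ₗ[ℝ] (Fin m → ℝ) :=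
  kerEquiv D.R D.p1 D.p1_injective
    (D.finrank_ker.trans (by simp : m = finrank ℝ (Fin m → ℝ)))

lemma e1_apply (c : ↥(LinearMap.ker D.R)) : D.e1 c = D.p1 c := rfl

/-- the core matrix -/
noncomputable def M : Matrix (Fin m) (Fin m) ℝ :=
  LinearMap.toMatrix' (D.p2 ∘ₗ (D.e1.symm : (Fin m → ℝ) →ₗ[ℝ] _))

lemma M_mulVec (x : Fin m → ℝ) : D.M *ᵥ x = D.p2 (D.e1.symm x) := by
  rw [M, ← Matrix.toLin'_apply, Matrix.toLin'_toMatrix']
  rfl

lemma M_strictVD : StrictVD D.M := by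
  intro x hx
  rw [M_mulVec]
  have h0 : ((D.e1.symm x : ↥(LinearMap.ker D.R)) : D.Eu × D.Ew) ≠ 0 := by
    intro h
    have h1 : D.e1.symm x = 0 := Subtype.ext h
    rw [LinearEquiv.map_eq_zero_iff] at h1
    exact hx h1
  obtain ⟨k, l, h1, h2, h3⟩ := D.pair_alt (D.e1.symm x).2 h0
  refine ⟨k, l, ?_, h2, h3⟩
  have h4 : P1 ℝ m z q (((D.e1.symm x : ↥(LinearMap.ker D.R)) : D.Eu × D.Ew).1 :
      Fin (m + z + q) → ℝ) = x := by
    have : D.p1 (D.e1.symm x) = x := by rw [← e1_apply, LinearEquiv.apply_symm_apply]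
    exact this
  rw [h4] at h1
  exact h1

end Data

/-- A real functional on a complex coordinate space. -/
noncomputable def pair {n : ℕ} (c : Fin n → ℝ) (v : Fin n → ℂ) : ℂ := ∑ i, (c i : ℂ) * v i

namespace Data

variable {m z q du dw : ℕ} (D : Data m z q du dw)

/-- Spaces of vectors annihilated by the functionals. -/
structure Vec (Gu Gw : Submodule ℂ (Fin (m + z + q) → ℂ)) : Prop where
  fu : finrank ℂ Gu = du
  fw : finrank ℂ Gw = dw
  au : ∀ c ∈ D.Eu, ∀ v ∈ Gu, pair c v = 0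
  aw : ∀ c ∈ D.Ew, ∀ v ∈ Gw, pair c v = 0
  su : ∀ v ∈ Gu, star v ∈ Gu
  sw : ∀ v ∈ Gw, star v ∈ Gw

/-- the map whose kernel consists of the pairs of vectors with zero middle part and equal last
part -/
noncomputable def RV (Gu Gw : Submodule ℂ (Fin (m + z + q) → ℂ)) :
    (Gu × Gw) →ₗ[ℂ] ((Fin z → ℂ) × (Fin z → ℂ) × (Fin q → ℂ)) :=
  (P2 ℂ m z q ∘ₗ Gu.subtype ∘ₗ LinearMap.fst ℂ _ _).prod
    ((P2 ℂ m z q ∘ₗ Gw.subtype ∘ₗ LinearMap.snd ℂ _ _).prod
      (P3 ℂ m z q ∘ₗ Gu.subtype ∘ₗ LinearMap.fst ℂ _ _ -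
        P3 ℂ m z q ∘ₗ Gw.subtype ∘ₗ LinearMap.snd ℂ _ _))

variable {D} {Gu Gw : Submodule ℂ (Fin (m + z + q) → ℂ)}

lemma mem_ker_RV {v : Gu × Gw} : v ∈ LinearMap.ker (RV Gu Gw) ↔
    P2 ℂ m z q (v.1 : Fin (m + z + q) → ℂ) = 0 ∧ P2 ℂ m z q (v.2 : Fin (m + z + q) → ℂ) = 0 ∧
      P3 ℂ m z q (v.1 : Fin (m + z + q) → ℂ) = P3 ℂ m z q (v.2 : Fin (m + z + q) → ℂ) := by
  rw [LinearMap.mem_ker]
  constructor
  · intro h
    have h1 := Prod.ext_iff.mp h
    have h2 := Prod.ext_iff.mp h1.2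
    exact ⟨h1.1, h2.1, sub_eq_zero.mp h2.2⟩
  · rintro ⟨h1, h2, h3⟩
    exact Prod.ext h1 (Prod.ext h2 (sub_eq_zero.mpr h3))

/-- transposition of the core relation -/
lemma transp (hG : D.Vec Gu Gw) {v : Gu × Gw} (hv : v ∈ LinearMap.ker (RV Gu Gw)) :
    P1 ℂ m z q (v.1 : Fin (m + z + q) → ℂ) =
      P1 ℂ m z q (v.2 : Fin (m + z + q) → ℂ) ᵥ* D.M.map (algebraMap ℝ ℂ) := by
  obtain ⟨h1, h2, h3⟩ := mem_ker_RV.mp hv
  funext j
  set c := D.e1.symm (Pi.single j 1) with hc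
  have e1 : P1 ℝ m z q ((c : D.Eu × D.Ew).1 : Fin (m + z + q) → ℝ) = Pi.single j 1 := by
    have : D.p1 c = Pi.single j 1 := by rw [← e1_apply, hc, LinearEquiv.apply_symm_apply]
    exact this
  have e2 : P1 ℝ m z q ((c : D.Eu × D.Ew).2 : Fin (m + z + q) → ℝ) = D.M *ᵥ Pi.single j 1 := by
    rw [D.M_mulVec]; rfl
  have e3 := (D.mem_ker).mp c.2
  have a1 := hG.au _ (c : D.Eu × D.Ew).1.2 _ v.1.2
  have a2 := hG.aw _ (c : D.Eu × D.Ew).2.2 _ v.2.2
  rw [pair, sum_P] at a1 a2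
  have z1 : ∀ i : Fin z, (v.1 : Fin (m + z + q) → ℂ) (Fin.castAdd q (Fin.natAdd m i)) = 0 :=
    fun i => congrFun h1 i
  have z2 : ∀ i : Fin z, (v.2 : Fin (m + z + q) → ℂ) (Fin.castAdd q (Fin.natAdd m i)) = 0 :=
    fun i => congrFun h2 i
  have z3 : ∀ i : Fin q, (v.1 : Fin (m + z + q) → ℂ) (Fin.natAdd (m + z) i) =
      (v.2 : Fin (m + z + q) → ℂ) (Fin.natAdd (m + z) i) := fun i => congrFun h3 i
  have z4 : ∀ i : Fin q, ((c : D.Eu × D.Ew).1 : Fin (m + z + q) → ℝ) (Fin.natAdd (m + z) i) =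
      ((c : D.Eu × D.Ew).2 : Fin (m + z + q) → ℝ) (Fin.natAdd (m + z) i) := fun i => congrFun e3 i
  simp only [z1, z2, mul_zero, Finset.sum_const_zero, add_zero] at a1 a2
  simp only [z3, z4] at a1
  have a3 := a1.trans a2.symm
  rw [add_left_inj] at a3
  have b1 : ∀ i : Fin m, ((c : D.Eu × D.Ew).1 : Fin (m + z + q) → ℝ)
      (Fin.castAdd q (Fin.castAdd z i)) = (Pi.single j 1 : Fin m → ℝ) i := fun i => congrFun e1 i
  have b2 : ∀ i : Fin m, ((c : D.Eu × D.Ew).2 : Fin (m + z + q) → ℝ)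
      (Fin.castAdd q (Fin.castAdd z i)) = D.M i j := fun i => by
    have := congrFun e2 i
    rw [Matrix.mulVec_single_one] at this
    exact this
  simp only [b1, b2] at a3
  rw [Finset.sum_eq_single j] at a3
  · rw [Pi.single_eq_same, Complex.ofReal_one, one_mul] at a3
    rw [P1_apply, a3, Matrix.vecMul, dotProduct]
    refine Finset.sum_congr rfl fun i _ => ?_
    rw [Matrix.map_apply, Complex.coe_algebraMap, mul_comm]
    rfl
  · intro i _ hi
    rw [Pi.single_eq_of_ne hi, Complex.ofReal_zero, zero_mul]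
  · intro h; exact absurd (Finset.mem_univ j) h

/-- the parameter of a pair of vectors -/
noncomputable def rho (Gu Gw : Submodule ℂ (Fin (m + z + q) → ℂ)) :
    ↥(LinearMap.ker (RV Gu Gw)) →ₗ[ℂ] (Fin m → ℂ) :=
  P1 ℂ m z q ∘ₗ Gw.subtype ∘ₗ LinearMap.snd ℂ _ _ ∘ₗ (LinearMap.ker (RV Gu Gw)).subtype

lemma rho_injective (hG : D.Vec Gu Gw) : Function.Injective (rho Gu Gw) := by
  refine ker_inj (RV Gu Gw) (rho Gu Gw) ?_
  intro v hv
  have h1 : P1 ℂ m z q ((v : Gu × Gw).2 : Fin (m + z + q) → ℂ) = 0 := hv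
  have h2 := transp hG v.2
  rw [h1, Matrix.zero_vecMul] at h2
  obtain ⟨h3, h4, h5⟩ := mem_ker_RV.mp v.2
  have h6 : P3 ℂ m z q ((v : Gu × Gw).2 : Fin (m + z + q) → ℂ) = 0 := by
    funext j
    obtain ⟨c, hc⟩ := D.R_surjective (Pi.single j 1)
    rw [D.R_apply] at hc
    have a1 := hG.au _ c.1.2 _ (v : Gu × Gw).1.2
    have a2 := hG.aw _ c.2.2 _ (v : Gu × Gw).2.2
    rw [pair, sum_P] at a1 a2
    have x1 : ∀ i : Fin m, ((v : Gu × Gw).1 : Fin (m + z + q) → ℂ)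
        (Fin.castAdd q (Fin.castAdd z i)) = 0 := fun i => congrFun h2 i
    have x2 : ∀ i : Fin m, ((v : Gu × Gw).2 : Fin (m + z + q) → ℂ)
        (Fin.castAdd q (Fin.castAdd z i)) = 0 := fun i => congrFun h1 i
    have z1 : ∀ i : Fin z, ((v : Gu × Gw).1 : Fin (m + z + q) → ℂ)
        (Fin.castAdd q (Fin.natAdd m i)) = 0 := fun i => congrFun h3 i
    have z2 : ∀ i : Fin z, ((v : Gu × Gw).2 : Fin (m + z + q) → ℂ)
        (Fin.castAdd q (Fin.natAdd m i)) = 0 := fun i => congrFun h4 i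
    have z3 : ∀ i : Fin q, ((v : Gu × Gw).1 : Fin (m + z + q) → ℂ) (Fin.natAdd (m + z) i) =
        ((v : Gu × Gw).2 : Fin (m + z + q) → ℂ) (Fin.natAdd (m + z) i) := fun i => congrFun h5 i
    simp only [x1, x2, z1, z2, z3, mul_zero, Finset.sum_const_zero, zero_add] at a1 a2
    have a3 := congrArg₂ (· - ·) a1 a2
    simp only [sub_zero] at a3
    rw [← Finset.sum_sub_distrib] at a3
    have b1 : ∀ i : Fin q, ((c.1 : Fin (m + z + q) → ℝ) (Fin.natAdd (m + z) i) : ℂ) -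
        ((c.2 : Fin (m + z + q) → ℝ) (Fin.natAdd (m + z) i) : ℂ) =
        ((Pi.single j 1 : Fin q → ℝ) i : ℂ) := fun i => by
      rw [← congrFun hc i]
      simp
    simp only [← sub_mul, b1] at a3
    rw [Finset.sum_eq_single j] at a3
    · rw [Pi.single_eq_same, Complex.ofReal_one, one_mul] at a3
      exact a3
    · intro i _ hi
      rw [Pi.single_eq_of_ne hi, Complex.ofReal_zero, zero_mul]
    · intro h; exact absurd (Finset.mem_univ j) h
  apply Subtype.ext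
  refine Prod.ext (Subtype.ext ?_) (Subtype.ext ?_)
  · exact ext_of_P (by rw [h2]; rfl) (by rw [h3]; rfl) (by rw [h5, h6]; rfl)
  · exact ext_of_P (by rw [h1]; rfl) (by rw [h4]; rfl) (by rw [h6]; rfl)

lemma finrank_ker_RV (hG : D.Vec Gu Gw) : finrank ℂ ↥(LinearMap.ker (RV Gu Gw)) = m := by
  have h1 := LinearMap.finrank_range_add_finrank_ker (RV Gu Gw)
  have h2 : finrank ℂ ↥(LinearMap.range (RV Gu Gw)) ≤ z + (z + q) := by
    have := Submodule.finrank_le (LinearMap.range (RV Gu Gw))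
    simpa [finrank_prod] using this
  have h3 := LinearMap.finrank_le_finrank_of_injective (rho_injective hG)
  rw [finrank_prod, hG.fu, hG.fw] at h1
  simp only [finrank_fintype_fun_eq_card, Fintype.card_fin] at h3
  have := D.hsum
  omega

/-- The output of the core construction. -/
structure Out (Gu Gw : Submodule ℂ (Fin (m + z + q) → ℂ)) (μ : Fin m → ℝ)
    (V : Matrix (Fin m) (Fin m) ℝ) where
  U : (Fin m → ℂ) →ₗ[ℂ] (Fin (m + z + q) → ℂ)
  W : (Fin m → ℂ) →ₗ[ℂ] (Fin (m + z + q) → ℂ)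
  Umem : ∀ u, U u ∈ Gu
  Wmem : ∀ u, W u ∈ Gw
  U2 : ∀ u, P2 ℂ m z q (U u) = 0
  W2 : ∀ u, P2 ℂ m z q (W u) = 0
  UW : ∀ u, P3 ℂ m z q (U u) = P3 ℂ m z q (W u)
  W1 : ∀ u, P1 ℂ m z q (W u) = u ᵥ* V.map (algebraMap ℝ ℂ)
  U1 : ∀ u, P1 ℂ m z q (U u) = (fun i => (μ i : ℂ) * u i) ᵥ* V.map (algebraMap ℝ ℂ)
  complete : ∀ g ∈ Gu, ∀ g' ∈ Gw, P2 ℂ m z q g = 0 → P2 ℂ m z q g' = 0 →
    P3 ℂ m z q g = P3 ℂ m z q g' → ∃ u, g = U u ∧ g' = W u
  starU : ∀ u, U (star u) = star (U u)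
  starW : ∀ u, W (star u) = star (W u)

theorem exists_out (D : Data m z q du dw) : ∃ (μ : Fin m → ℝ) (V : Matrix (Fin m) (Fin m) ℝ),
    Function.Injective μ ∧ (∀ i, μ i ≠ 0) ∧ V.det ≠ 0 ∧
    ∀ Gu Gw : Submodule ℂ (Fin (m + z + q) → ℂ), D.Vec Gu Gw → Nonempty (Out Gu Gw μ V) := by
  classical
  obtain ⟨μ, hμmono, hμroot⟩ := D.M_strictVD.exists_eigenvalues
  obtain ⟨V, hV, hVT⟩ := exists_left_eigenmatrix _ hμmono.injective hμroot
  have hVc : (V.map (algebraMap ℝ ℂ)).det ≠ 0 := by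
    have := (algebraMap ℝ ℂ).map_det V
    rw [RingHom.mapMatrix_apply] at this
    rw [← this]
    exact (map_ne_zero _).mpr hV
  have hMdet : D.M.det ≠ 0 := by
    intro h0
    obtain ⟨x, hx0, hx⟩ := Matrix.exists_mulVec_eq_zero_iff.mpr h0
    exact D.M_strictVD.mulVec_ne_zero hx0 hx
  have hμ0 : ∀ i, μ i ≠ 0 := by
    have h1 := congrArg Matrix.det hVT
    rw [Matrix.det_mul V, Matrix.det_mul (Matrix.diagonal μ), Matrix.det_diagonal] at h1
    have h2 : (∏ i, μ i) * V.det ≠ 0 := by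
      rw [← h1]
      exact mul_ne_zero hV hMdet
    have h3 := left_ne_zero_of_mul h2
    rw [Finset.prod_ne_zero_iff] at h3
    exact fun i => h3 i (Finset.mem_univ i)
  refine ⟨μ, V, hμmono.injective, hμ0, hV, fun Gu Gw hG => ?_⟩
  have hinj := rho_injective hG
  let er : ↥(LinearMap.ker (RV Gu Gw)) ≃ₗ[ℂ] (Fin m → ℂ) :=
    kerEquiv (RV Gu Gw) (rho Gu Gw) hinj
      ((finrank_ker_RV hG).trans (by simp : m = finrank ℂ (Fin m → ℂ)))
  have her : ∀ v, er v = rho Gu Gw v := fun v => rfl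
  let vm : (Fin m → ℂ) →ₗ[ℂ] (Fin m → ℂ) := Matrix.vecMulLinear (V.map (algebraMap ℝ ℂ))
  have hvm : ∀ u, vm u = u ᵥ* V.map (algebraMap ℝ ℂ) := fun u => rfl
  let S : (Fin m → ℂ) →ₗ[ℂ] ↥(LinearMap.ker (RV Gu Gw)) := er.symm.toLinearMap ∘ₗ vm
  have hS : ∀ u, rho Gu Gw (S u) = u ᵥ* V.map (algebraMap ℝ ℂ) := by
    intro u
    rw [← her]
    change er (er.symm (vm u)) = _
    rw [LinearEquiv.apply_symm_apply, hvm]
  have hVT' : V.map (algebraMap ℝ ℂ) * D.M.map (algebraMap ℝ ℂ) =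
      (Matrix.diagonal fun i => (μ i : ℂ)) * V.map (algebraMap ℝ ℂ) := by
    have h1 := congrArg (fun A : Matrix (Fin m) (Fin m) ℝ => A.map (algebraMap ℝ ℂ)) hVT
    simp only [Matrix.map_mul] at h1
    rw [h1]
    congr 1
    ext i j
    by_cases hij : i = j
    · subst hij; simp
    · simp [hij]
  have hcomp : ∀ v : ↥(LinearMap.ker (RV Gu Gw)), ∃ u, v = S u := by
    intro v
    have hu : IsUnit (V.map (algebraMap ℝ ℂ)) :=
      (Matrix.isUnit_iff_isUnit_det _).mpr (isUnit_iff_ne_zero.mpr hVc)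
    obtain ⟨u, hu'⟩ := (Matrix.vecMul_surjective_iff_isUnit.mpr hu) (rho Gu Gw v)
    refine ⟨u, hinj ?_⟩
    rw [hS]; exact hu'.symm
  have hstar : ∀ u, ∃ v : ↥(LinearMap.ker (RV Gu Gw)),
      (((v : Gu × Gw).1 : Fin (m + z + q) → ℂ) = star (((S u : Gu × Gw).1 : Fin (m + z + q) → ℂ)) ∧
      ((v : Gu × Gw).2 : Fin (m + z + q) → ℂ) = star (((S u : Gu × Gw).2 : Fin (m + z + q) → ℂ))) ∧
      v = S (star u) := by
    intro u
    obtain ⟨h1, h2, h3⟩ := mem_ker_RV.mp (S u).2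
    let v : Gu × Gw := (⟨star (((S u : Gu × Gw).1 : Fin (m + z + q) → ℂ)), hG.su _ (S u : Gu × Gw).1.2⟩,
      ⟨star (((S u : Gu × Gw).2 : Fin (m + z + q) → ℂ)), hG.sw _ (S u : Gu × Gw).2.2⟩)
    have hv : v ∈ LinearMap.ker (RV Gu Gw) := by
      refine mem_ker_RV.mpr ⟨?_, ?_, ?_⟩
      · funext i
        have := congrFun h1 i
        simp only [P2_apply, Pi.zero_apply] at this
        simp only [v, P2_apply, Pi.star_apply, Pi.zero_apply, this, star_zero]
      · funext i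
        have := congrFun h2 i
        simp only [P2_apply, Pi.zero_apply] at this
        simp only [v, P2_apply, Pi.star_apply, Pi.zero_apply, this, star_zero]
      · funext i
        have := congrFun h3 i
        simp only [P3_apply] at this
        simp only [v, P3_apply, Pi.star_apply, this]
    refine ⟨⟨v, hv⟩, ⟨rfl, rfl⟩, hinj ?_⟩
    rw [hS]
    have h4 := hS u
    funext j
    have h5 := congrArg star (congrFun h4 j)
    have h6 : (rho Gu Gw ⟨v, hv⟩) j = star ((rho Gu Gw (S u)) j) := rfl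
    rw [h6, h5]
    simp only [Matrix.vecMul, dotProduct, star_sum, star_mul', Pi.star_apply, Matrix.map_apply,
      Complex.coe_algebraMap, RCLike.star_def, Complex.conj_ofReal]
  refine ⟨{
    U := Gu.subtype ∘ₗ LinearMap.fst ℂ _ _ ∘ₗ (LinearMap.ker (RV Gu Gw)).subtype ∘ₗ S
    W := Gw.subtype ∘ₗ LinearMap.snd ℂ _ _ ∘ₗ (LinearMap.ker (RV Gu Gw)).subtype ∘ₗ S
    Umem := fun u => ((S u : Gu × Gw).1).2
    Wmem := fun u => ((S u : Gu × Gw).2).2
    U2 := fun u => (mem_ker_RV.mp (S u).2).1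
    W2 := fun u => (mem_ker_RV.mp (S u).2).2.1
    UW := fun u => (mem_ker_RV.mp (S u).2).2.2
    W1 := fun u => hS u
    U1 := fun u => ?_
    complete := fun g hg g' hg' h1 h2 h3 => ?_
    starU := fun u => ?_
    starW := fun u => ?_ }⟩
  · have h1 := transp hG (S u).2
    have h2 : P1 ℂ m z q ((S u : Gu × Gw).2 : Fin (m + z + q) → ℂ) =
        u ᵥ* V.map (algebraMap ℝ ℂ) := hS u
    rw [h2, Matrix.vecMul_vecMul, hVT', ← Matrix.vecMul_vecMul] at h1
    refine h1.trans ?_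
    congr 1
    funext i
    rw [Matrix.vecMul_diagonal, mul_comm]
  · obtain ⟨u, hu⟩ := hcomp ⟨(⟨g, hg⟩, ⟨g', hg'⟩), mem_ker_RV.mpr ⟨h1, h2, h3⟩⟩
    refine ⟨u, ?_, ?_⟩
    · have := congrArg (fun x : ↥(LinearMap.ker (RV Gu Gw)) =>
        (((x : Gu × Gw).1 : Gu) : Fin (m + z + q) → ℂ)) hu
      exact this
    · have := congrArg (fun x : ↥(LinearMap.ker (RV Gu Gw)) =>
        (((x : Gu × Gw).2 : Gw) : Fin (m + z + q) → ℂ)) hu
      exact this
  · obtain ⟨v, ⟨h1, h2⟩, h3⟩ := hstar u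
    change (((S (star u) : Gu × Gw).1 : Gu) : Fin (m + z + q) → ℂ) = _
    rw [← h3, h1]; rfl
  · obtain ⟨v, ⟨h1, h2⟩, h3⟩ := hstar u
    change (((S (star u) : Gu × Gw).2 : Gw) : Fin (m + z + q) → ℂ) = _
    rw [← h3, h2]; rfl

end Data

end Pool.Agent.Quad4
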