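import Mathlib
import Pool.Agent.Lib.QuadrupleSubspaces

/-!
# Quadruples of subspaces of the two types

`H` of dimension `2p` meeting four subspaces in dimension at least `p`, for two abstract types of
quadruples of subspaces which are diagonalised by `m` distinct numbers.
-/

set_option autoImplicit false

namespace Pool.Agent.Quad4

open Module Pool.Agent.Quadruple

variable {K V : Type*} [Field K] [AddCommGroup V] [Module K V] {m : ℕ}

/-- The conclusion: all `H` of dimension `2p` meeting the given subspaces in dimension at least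
`p` are the `sub S` with `S` of cardinality `p`, and they are transverse. -/
structure Good (m : ℕ) (Fs : Set (Submodule K V)) (sub : Finset (Fin m) → Submodule K V) :
    Prop where
  mem_iff : ∀ (p : ℕ) (H : Submodule K V),
    (finrank K H = 2 * p ∧ ∀ F ∈ Fs, p ≤ finrank K ↥(H ⊓ F)) ↔ ∃ S, S.card = p ∧ H = sub S
  inj : Function.Injective sub
  exact : ∀ S, ∀ F ∈ Fs, finrank K ↥(sub S ⊓ F) = S.card
  dim : ∀ S, finrank K (sub S) = 2 * S.card
  tangent : ∀ (S : Finset (Fin m)) (φ : ↥(sub S) →ₗ[K] (V ⧸ sub S)),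
    (∀ F ∈ Fs, ∀ v : ↥(sub S), (v : V) ∈ F → ∃ f ∈ F, φ v = (sub S).mkQ f) → φ = 0

/-! ### Generalities -/

lemma split [FiniteDimensional K V] {H F G : Submodule K V} {p : ℕ} (hH : finrank K H = 2 * p)
    (hF : p ≤ finrank K ↥(H ⊓ F)) (hG : p ≤ finrank K ↥(H ⊓ G)) (hFG : F ⊓ G = ⊥) :
    finrank K ↥(H ⊓ F) = p ∧ finrank K ↥(H ⊓ G) = p ∧
      ∀ h ∈ H, ∃ f ∈ H ⊓ F, ∃ g ∈ H ⊓ G, h = f + g := by
  have h1 := Submodule.finrank_sup_add_finrank_inf_eq (H ⊓ F) (H ⊓ G)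
  have h2 : (H ⊓ F) ⊓ (H ⊓ G) = ⊥ := by
    rw [eq_bot_iff]
    rintro x ⟨⟨_, hx1⟩, ⟨_, hx2⟩⟩
    have : x ∈ F ⊓ G := ⟨hx1, hx2⟩
    rw [hFG] at this
    exact this
  have h3 : (H ⊓ F) ⊔ (H ⊓ G) ≤ H := sup_le inf_le_left inf_le_left
  have h4 := Submodule.finrank_mono h3
  rw [h2, finrank_bot] at h1
  have h5 : (H ⊓ F) ⊔ (H ⊓ G) = H := Submodule.eq_of_le_of_finrank_eq h3 (by omega)
  refine ⟨by omega, by omega, fun h hh => ?_⟩
  rw [← h5, Submodule.mem_sup] at hh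
  obtain ⟨f, hf, g, hg, e⟩ := hh
  exact ⟨f, hf, g, hg, e.symm⟩

lemma finrank_map_inj {W : Type*} [AddCommGroup W] [Module K W] {f : W →ₗ[K] V}
    (hf : Function.Injective f) (A : Submodule K W) : finrank K ↥(A.map f) = finrank K A :=
  (Submodule.equivMapOfInjective f hf A).finrank_eq.symm

/-- The subspace spanned by the images of a coordinate subspace. -/
def sub2 (f g : (Fin m → K) →ₗ[K] V) (S : Finset (Fin m)) : Submodule K V :=
  (coordSub K S).map f ⊔ (coordSub K S).map g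

section sub2

variable {f g : (Fin m → K) →ₗ[K] V}

lemma mem_sub2 {S : Finset (Fin m)} {v : V} :
    v ∈ sub2 f g S ↔ ∃ x ∈ coordSub K S, ∃ y ∈ coordSub K S, v = f x + g y := by
  rw [sub2, Submodule.mem_sup]
  constructor
  · rintro ⟨_, ⟨x, hx, rfl⟩, _, ⟨y, hy, rfl⟩, rfl⟩
    exact ⟨x, hx, y, hy, rfl⟩
  · rintro ⟨x, hx, y, hy, rfl⟩
    exact ⟨_, ⟨x, hx, rfl⟩, _, ⟨y, hy, rfl⟩, rfl⟩

variable (h : ∀ x y, f x + g y = 0 → x = 0 ∧ y = 0)

include h

lemma pair_inj {x y x' y' : Fin m → K} (e : f x + g y = f x' + g y') : x = x' ∧ y = y' := by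
  have h1 : f (x - x') + g (y - y') = 0 := by
    rw [map_sub, map_sub]
    have : f x - f x' + (g y - g y') = (f x + g y) - (f x' + g y') := by abel
    rw [this, e, sub_self]
  obtain ⟨h2, h3⟩ := h _ _ h1
  exact ⟨sub_eq_zero.mp h2, sub_eq_zero.mp h3⟩

lemma pair_mem_sub2 {S : Finset (Fin m)} {x y : Fin m → K} :
    f x + g y ∈ sub2 f g S ↔ x ∈ coordSub K S ∧ y ∈ coordSub K S := by
  rw [mem_sub2]
  constructor
  · rintro ⟨x', hx', y', hy', e⟩
    obtain ⟨rfl, rfl⟩ := pair_inj h e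
    exact ⟨hx', hy'⟩
  · rintro ⟨hx, hy⟩
    exact ⟨x, hx, y, hy, rfl⟩

lemma f_inj : Function.Injective f := by
  rw [← LinearMap.ker_eq_bot, LinearMap.ker_eq_bot']
  intro x hx
  exact (h x 0 (by rw [hx, map_zero, add_zero])).1

lemma g_inj : Function.Injective g := by
  rw [← LinearMap.ker_eq_bot, LinearMap.ker_eq_bot']
  intro x hx
  exact (h 0 x (by rw [hx, map_zero, add_zero])).2

lemma finrank_sub2 [FiniteDimensional K V] (S : Finset (Fin m)) :
    finrank K (sub2 f g S) = 2 * S.card := by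
  have h1 := Submodule.finrank_sup_add_finrank_inf_eq ((coordSub K S).map f)
    ((coordSub K S).map g)
  have h2 : (coordSub K S).map f ⊓ (coordSub K S).map g = ⊥ := by
    rw [eq_bot_iff]
    rintro _ ⟨⟨x, _, rfl⟩, ⟨y, _, e⟩⟩
    have h3 := h x (-y) (by rw [map_neg, e]; abel)
    rw [h3.1, map_zero]
    exact Submodule.zero_mem _
  rw [h2, finrank_bot, finrank_map_inj (f_inj h), finrank_map_inj (g_inj h),
    finrank_coordSub] at h1
  rw [sub2]
  omega

lemma sub2_injective : Function.Injective (sub2 f g) := by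
  intro S S' hSS'
  ext i
  have h1 : ∀ T : Finset (Fin m), i ∈ T ↔ f (Pi.single i 1) + g 0 ∈ sub2 f g T := by
    intro T
    rw [pair_mem_sub2 h, single_mem_coordSub (K := K) one_ne_zero]
    exact ⟨fun hi => ⟨hi, Submodule.zero_mem _⟩, fun hi => hi.1⟩
  rw [h1 S, h1 S', hSS']

end sub2

/-- multiplication by `μ` -/
def mulμ (μ : Fin m → K) : (Fin m → K) →ₗ[K] (Fin m → K) where
  toFun u := fun i => μ i * u i
  map_add' u v := by funext i; simp [mul_add]
  map_smul' c u := by funext i; simp only [Pi.smul_apply, smul_eq_mul, RingHom.id_apply]; ring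

@[simp] lemma mulμ_apply (μ u : Fin m → K) (i : Fin m) : mulμ μ u i = μ i * u i := rfl

lemma mulμ_mem {μ : Fin m → K} {S : Finset (Fin m)} {u : Fin m → K} (hu : u ∈ coordSub K S) :
    mulμ μ u ∈ coordSub K S := fun i hi => by rw [mulμ_apply, hu i hi, mul_zero]

lemma mem_of_mulμ {μ : Fin m → K} (hμ : Function.Injective μ) {S : Finset (Fin m)} {i : Fin m}
    (hi : i ∈ S) {u : Fin m → K} (h : mulμ μ u - μ i • u ∈ coordSub K S) : u ∈ coordSub K S := by
  intro j hj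
  have h1 := h j hj
  simp only [Pi.sub_apply, mulμ_apply, Pi.smul_apply, smul_eq_mul] at h1
  have h2 : (μ j - μ i) * u j = 0 := by rw [sub_mul]; exact h1
  rcases mul_eq_zero.mp h2 with h3 | h3
  · exfalso
    apply hj
    rw [hμ (sub_eq_zero.mp h3)]
    exact hi
  · exact h3

/-! ### The first type -/

/-- First type: `Fv` is small, the other three are congruent modulo `Fv`. -/
structure Delta (m : ℕ) (Fv Fa Fb Fc : Submodule K V) where
  ξ : (Fin m → K) →ₗ[K] V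
  a : (Fin m → K) →ₗ[K] V
  μ : Fin m → K
  μ_inj : Function.Injective μ
  hv : ∀ u, ξ u ∈ Fv
  iξ : Function.Injective ξ
  ha : ∀ u, a u ∈ Fa
  hb : ∀ u, a u + ξ u ∈ Fb
  hc : ∀ u, a u + ξ (mulμ μ u) ∈ Fc
  complete : ∀ fa ∈ Fa, ∀ fb ∈ Fb, ∀ fc ∈ Fc, fb - fa ∈ Fv → fc - fa ∈ Fv →
    ∃ u, fa = a u ∧ fb = a u + ξ u ∧ fc = a u + ξ (mulμ μ u)
  va : Fv ⊓ Fa = ⊥
  vb : Fv ⊓ Fb = ⊥
  vc : Fv ⊓ Fc = ⊥

namespace Delta

variable {Fv Fa Fb Fc : Submodule K V} (D : Delta m Fv Fa Fb Fc)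

include D in
lemma zero_of {x : V} (h1 : x ∈ Fv) (h2 : x ∈ Fa) : x = 0 := by
  have : x ∈ Fv ⊓ Fa := ⟨h1, h2⟩
  rw [D.va] at this
  exact this

lemma ia {u : Fin m → K} (h : D.a u = 0) : u = 0 := by
  have h1 := D.hb u
  rw [h, zero_add] at h1
  have h2 : D.ξ u ∈ Fv ⊓ Fb := ⟨D.hv u, h1⟩
  rw [D.vb] at h2
  have h3 : D.ξ u = 0 := h2
  exact D.iξ (by rw [h3, map_zero])

lemma joint (x y : Fin m → K) (h : D.ξ x + D.a y = 0) : x = 0 ∧ y = 0 := by
  have h1 : D.a y = - D.ξ x := by rw [eq_neg_iff_add_eq_zero, add_comm]; exact h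
  have h2 : D.a y = 0 := D.zero_of (by rw [h1]; exact Fv.neg_mem (D.hv x)) (D.ha y)
  refine ⟨?_, D.ia h2⟩
  rw [h2, add_zero] at h
  exact D.iξ (by rw [h, map_zero])

lemma le_inf [FiniteDimensional K V] (S : Finset (Fin m)) {F : Submodule K V}
    (ι : (Fin m → K) →ₗ[K] V) (hι : Function.Injective ι)
    (hF : ∀ u ∈ coordSub K S, ι u ∈ F) (hH : ∀ u ∈ coordSub K S, ι u ∈ sub2 D.ξ D.a S) :
    S.card ≤ finrank K ↥(sub2 D.ξ D.a S ⊓ F) := by
  rw [← finrank_coordSub (K := K) S, ← finrank_map_inj hι]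
  refine Submodule.finrank_mono ?_
  rintro _ ⟨u, hu, rfl⟩
  exact ⟨hH u hu, hF u hu⟩

lemma card_le [FiniteDimensional K V] (S : Finset (Fin m)) {F : Submodule K V}
    (hF : F ∈ ({Fv, Fa, Fb, Fc} : Set (Submodule K V))) :
    S.card ≤ finrank K ↥(sub2 D.ξ D.a S ⊓ F) := by
  simp only [Set.mem_insert_iff, Set.mem_singleton_iff] at hF
  have hz : (0 : Fin m → K) ∈ coordSub K S := Submodule.zero_mem _
  rcases hF with rfl | rfl | rfl | rfl
  · refine D.le_inf S D.ξ D.iξ (fun u _ => D.hv u) (fun u hu => mem_sub2.mpr ⟨u, hu, 0, hz, ?_⟩)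
    rw [map_zero, add_zero]
  · refine D.le_inf S D.a (g_inj D.joint) (fun u _ => D.ha u)
      (fun u hu => mem_sub2.mpr ⟨0, hz, u, hu, ?_⟩)
    rw [map_zero, zero_add]
  · refine D.le_inf S (D.ξ + D.a) ?_ (fun u _ => ?_)
      (fun u hu => mem_sub2.mpr ⟨u, hu, u, hu, rfl⟩)
    · rw [← LinearMap.ker_eq_bot, LinearMap.ker_eq_bot']
      intro u hu
      exact (D.joint u u hu).1
    · rw [LinearMap.add_apply, add_comm]; exact D.hb u
  · refine D.le_inf S (D.ξ ∘ₗ mulμ D.μ + D.a) ?_ (fun u _ => ?_)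
      (fun u hu => mem_sub2.mpr ⟨mulμ D.μ u, mulμ_mem hu, u, hu, rfl⟩)
    · rw [← LinearMap.ker_eq_bot, LinearMap.ker_eq_bot']
      intro u hu
      exact (D.joint _ u hu).2
    · rw [LinearMap.add_apply, add_comm]; exact D.hc u

theorem exact [FiniteDimensional K V] (S : Finset (Fin m)) {F : Submodule K V}
    (hF : F ∈ ({Fv, Fa, Fb, Fc} : Set (Submodule K V))) :
    finrank K ↥(sub2 D.ξ D.a S ⊓ F) = S.card := by
  have h0 := finrank_sub2 D.joint S
  have hc := fun {F : Submodule K V} (hF : F ∈ ({Fv, Fa, Fb, Fc} : Set (Submodule K V))) =>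
    D.card_le S hF
  simp only [Set.mem_insert_iff, Set.mem_singleton_iff] at hF hc
  rcases hF with rfl | rfl | rfl | rfl
  · exact (split h0 (hc (by simp)) (hc (by simp)) D.va).1
  · exact (split h0 (hc (by simp)) (hc (by simp)) D.va).2.1
  · exact (split h0 (hc (by simp)) (hc (by simp)) D.vb).2.1
  · exact (split h0 (hc (by simp)) (hc (by simp)) D.vc).2.1

theorem classify [FiniteDimensional K V] {p : ℕ} {H : Submodule K V} (hH : finrank K H = 2 * p)
    (hF : ∀ F ∈ ({Fv, Fa, Fb, Fc} : Set (Submodule K V)), p ≤ finrank K ↥(H ⊓ F)) :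
    ∃ S, S.card = p ∧ H = sub2 D.ξ D.a S := by
  classical
  have h1 := hF Fv (by simp)
  have h2 := hF Fa (by simp)
  have h3 := hF Fb (by simp)
  have h4 := hF Fc (by simp)
  obtain ⟨dv, da, sa⟩ := split hH h1 h2 D.va
  obtain ⟨_, db, sb⟩ := split hH h1 h3 D.vb
  obtain ⟨_, dc, sc⟩ := split hH h1 h4 D.vc
  set P : Submodule K (Fin m → K) := H.comap D.a ⊓ H.comap D.ξ with hP
  have key : ∀ h ∈ H ⊓ Fa, ∃ u ∈ P, h = D.a u ∧ D.ξ (mulμ D.μ u) ∈ H := by
    rintro h ⟨hh, hha⟩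
    obtain ⟨x, hx, y, hy, e⟩ := sb h hh
    obtain ⟨x', hx', y', hy', e'⟩ := sc h hh
    obtain ⟨u, e1, e2, e3⟩ := D.complete h hha y hy.2 y' hy'.2
      (by have : y - h = -x := by rw [e]; abel
          rw [this]; exact Fv.neg_mem hx.2)
      (by have : y' - h = -x' := by rw [e']; abel
          rw [this]; exact Fv.neg_mem hx'.2)
    refine ⟨u, ⟨?_, ?_⟩, e1, ?_⟩
    · show D.a u ∈ H
      rw [← e1]; exact hh
    · show D.ξ u ∈ H
      have : D.ξ u = y - h := by rw [e2, e1]; abel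
      rw [this]; exact H.sub_mem hy.1 hh
    · have : D.ξ (mulμ D.μ u) = y' - h := by rw [e3, e1]; abel
      rw [this]; exact H.sub_mem hy'.1 hh
  have hmapa : P.map D.a = H ⊓ Fa := by
    apply le_antisymm
    · rintro _ ⟨u, hu, rfl⟩
      exact ⟨hu.1, D.ha u⟩
    · intro h hh
      obtain ⟨u, hu, e, _⟩ := key h hh
      exact ⟨u, hu, e.symm⟩
  have hPp : finrank K P = p := by
    rw [← finrank_map_inj (g_inj D.joint) P, hmapa, da]
  have hmapξ : P.map D.ξ = H ⊓ Fv := by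
    refine Submodule.eq_of_le_of_finrank_eq ?_ ?_
    · rintro _ ⟨u, hu, rfl⟩
      exact ⟨hu.2, D.hv u⟩
    · rw [finrank_map_inj D.iξ, hPp, dv]
  have hinv : ∀ u ∈ P, (fun i => D.μ i * u i) ∈ P := by
    intro u hu
    obtain ⟨u', hu', e, h5⟩ := key (D.a u) ⟨hu.1, D.ha u⟩
    have e1 : u = u' := (g_inj D.joint) e
    subst e1
    have h6 : D.ξ (mulμ D.μ u) ∈ H ⊓ Fv := ⟨h5, D.hv _⟩
    rw [← hmapξ] at h6
    obtain ⟨w, hw, e2⟩ := h6
    have e3 : w = mulμ D.μ u := D.iξ e2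
    rw [e3] at hw
    exact hw
  obtain ⟨S, hS⟩ := eq_coordSub_of_invariant D.μ_inj P hinv
  refine ⟨S, ?_, ?_⟩
  · rw [← finrank_coordSub (K := K) S, ← hS, hPp]
  · rw [sub2, ← hS, hmapa, hmapξ]
    apply le_antisymm
    · intro h hh
      obtain ⟨x, hx, y, hy, e⟩ := sa h hh
      rw [e]
      exact Submodule.add_mem_sup hx hy
    · exact sup_le inf_le_left inf_le_left

lemma sub_of_mkQ {H : Submodule K V} {u v : V} (h : H.mkQ u = H.mkQ v) : u - v ∈ H := by
  rw [← sub_eq_zero, ← map_sub, Submodule.mkQ_apply, Submodule.Quotient.mk_eq_zero] at h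
  exact h

lemma mkQ_zero {H : Submodule K V} {u : V} (h : u ∈ H) : H.mkQ u = 0 := by
  rw [Submodule.mkQ_apply, Submodule.Quotient.mk_eq_zero]
  exact h

/-- A linear map on `sub2 f g S` is zero if it vanishes on the basis vectors. -/
lemma eq_zero_of_basis {f g : (Fin m → K) →ₗ[K] V} {W : Type*} [AddCommGroup W] [Module K W]
    (S : Finset (Fin m)) (φ : ↥(sub2 f g S) →ₗ[K] W)
    (h : ∀ i ∈ S, (∀ v : ↥(sub2 f g S), (v : V) = f (Pi.single i 1) → φ v = 0) ∧
      ∀ v : ↥(sub2 f g S), (v : V) = g (Pi.single i 1) → φ v = 0) : φ = 0 := by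
  classical
  have hz : (0 : Fin m → K) ∈ coordSub K S := Submodule.zero_mem _
  have hfm : ∀ i ∈ S, f (Pi.single i 1) ∈ sub2 f g S := fun i hi =>
    mem_sub2.mpr ⟨_, (single_mem_coordSub one_ne_zero).mpr hi, 0, hz, by rw [map_zero, add_zero]⟩
  have hgm : ∀ i ∈ S, g (Pi.single i 1) ∈ sub2 f g S := fun i hi =>
    mem_sub2.mpr ⟨0, hz, _, (single_mem_coordSub one_ne_zero).mpr hi, by rw [map_zero, zero_add]⟩
  ext v
  rw [LinearMap.zero_apply]
  obtain ⟨x, hx, y, hy, e⟩ := mem_sub2.mp v.2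
  have hexp : ∀ z ∈ coordSub K S, z = ∑ i ∈ S.attach, z i • (Pi.single (i : Fin m) 1 : Fin m → K) := by
    intro z hz
    rw [Finset.sum_attach S (fun i => z i • (Pi.single i 1 : Fin m → K))]
    funext k
    rw [Finset.sum_apply]
    by_cases hk : k ∈ S
    · rw [Finset.sum_eq_single k]
      · simp
      · intro b _ hb
        simp [Ne.symm hb]
      · intro h; exact absurd hk h
    · rw [hz k hk, Finset.sum_eq_zero]
      intro b hb
      have : b ≠ k := by rintro rfl; exact hk hb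
      simp [Ne.symm this]
  have e1 : v = (∑ i ∈ S.attach, x i • (⟨f (Pi.single (i : Fin m) 1), hfm i i.2⟩ :
      ↥(sub2 f g S))) + ∑ i ∈ S.attach, y i • (⟨g (Pi.single (i : Fin m) 1), hgm i i.2⟩ :
      ↥(sub2 f g S)) := by
    apply Subtype.ext
    rw [e]
    conv_lhs => rw [hexp x hx, hexp y hy]
    simp only [map_sum, map_smul, Submodule.coe_add, AddSubmonoidClass.coe_finsetSum,
      Submodule.coe_smul]
  rw [e1, map_add, map_sum, map_sum, Finset.sum_eq_zero, Finset.sum_eq_zero, add_zero]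
  · intro i _
    rw [map_smul, (h i i.2).2 _ rfl, smul_zero]
  · intro i _
    rw [map_smul, (h i i.2).1 _ rfl, smul_zero]

theorem tangent [FiniteDimensional K V] (S : Finset (Fin m))
    (φ : ↥(sub2 D.ξ D.a S) →ₗ[K] (V ⧸ sub2 D.ξ D.a S))
    (hφ : ∀ F ∈ ({Fv, Fa, Fb, Fc} : Set (Submodule K V)), ∀ v : ↥(sub2 D.ξ D.a S), (v : V) ∈ F →
      ∃ f ∈ F, φ v = (sub2 D.ξ D.a S).mkQ f) : φ = 0 := by
  classical
  set H := sub2 D.ξ D.a S with hH
  have hdim := finrank_sub2 D.joint S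
  rw [← hH] at hdim
  have hex := fun {F : Submodule K V} (hF : F ∈ ({Fv, Fa, Fb, Fc} : Set (Submodule K V))) =>
    (D.card_le S hF)
  rw [← hH] at hex
  obtain ⟨_, _, sb⟩ := split hdim (hex (F := Fv) (by simp)) (hex (F := Fb) (by simp)) D.vb
  obtain ⟨_, _, sc⟩ := split hdim (hex (F := Fv) (by simp)) (hex (F := Fc) (by simp)) D.vc
  have hz : (0 : Fin m → K) ∈ coordSub K S := Submodule.zero_mem _
  have hvm : ∀ x, x ∈ H → x ∈ Fv → ∃ y ∈ coordSub K S, x = D.ξ y := by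
    intro x hx hxv
    obtain ⟨y, hy, y', hy', e⟩ := mem_sub2.mp hx
    have h1 : D.a y' ∈ Fv := by
      have : D.a y' = x - D.ξ y := by rw [e]; abel
      rw [this]; exact Fv.sub_mem hxv (D.hv y)
    have h2 : D.a y' = 0 := D.zero_of h1 (D.ha y')
    exact ⟨y, hy, by rw [e, h2, add_zero]⟩
  apply eq_zero_of_basis
  intro i hi
  have hei : (Pi.single i 1 : Fin m → K) ∈ coordSub K S :=
    (single_mem_coordSub one_ne_zero).mpr hi
  have hv1 : D.ξ (Pi.single i 1) ∈ H := mem_sub2.mpr ⟨_, hei, 0, hz, by rw [map_zero, add_zero]⟩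
  have ha1 : D.a (Pi.single i 1) ∈ H := mem_sub2.mpr ⟨0, hz, _, hei, by rw [map_zero, zero_add]⟩
  have hmu : mulμ D.μ (Pi.single i 1) = D.μ i • (Pi.single i 1 : Fin m → K) := by
    funext k
    by_cases hk : k = i
    · subst hk; simp
    · simp [hk]
  set v1 : ↥H := ⟨D.ξ (Pi.single i 1), hv1⟩ with hv1'
  set a1 : ↥H := ⟨D.a (Pi.single i 1), ha1⟩ with ha1'
  obtain ⟨fv, hfv, ev⟩ := hφ Fv (by simp) v1 (D.hv _)
  obtain ⟨fa, hfa, ea⟩ := hφ Fa (by simp) a1 (D.ha _)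
  obtain ⟨fb, hfb, eb⟩ := hφ Fb (by simp) (a1 + v1) (D.hb _)
  obtain ⟨fc, hfc, ec⟩ := hφ Fc (by simp) (a1 + D.μ i • v1) (by
    have h1 := D.hc (Pi.single i 1)
    rw [hmu, map_smul] at h1
    exact h1)
  have r1 : fb - (fa + fv) ∈ H := by
    apply sub_of_mkQ
    rw [← eb, map_add, map_add, ea, ev]
  have r2 : fc - (fa + D.μ i • fv) ∈ H := by
    apply sub_of_mkQ
    rw [← ec, map_add, map_add, map_smul, map_smul, ea, ev]
  obtain ⟨x, hx, y, hy, e⟩ := sb _ r1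
  obtain ⟨x', hx', y', hy', e'⟩ := sc _ r2
  obtain ⟨u, e1, e2, e3⟩ := D.complete fa hfa (fb - y) (Fb.sub_mem hfb hy.2) (fc - y')
    (Fc.sub_mem hfc hy'.2)
    (by have : fb - y - fa = fv + x := by
          have h1 : fb - y - fa = (fb - (fa + fv)) - y + fv := by abel
          rw [h1, e]; abel
        rw [this]; exact Fv.add_mem hfv hx.2)
    (by have : fc - y' - fa = D.μ i • fv + x' := by
          have h1 : fc - y' - fa = (fc - (fa + D.μ i • fv)) - y' + D.μ i • fv := by abel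
          rw [h1, e']; abel
        rw [this]; exact Fv.add_mem (Fv.smul_mem _ hfv) hx'.2)
  have g1 : D.ξ u = fv + x := by
    have h1 : D.ξ u = fb - y - fa := by rw [e2, e1]; abel
    have h2 : fb - y - fa = (fb - (fa + fv)) - y + fv := by abel
    rw [h1, h2, e]; abel
  have g2 : D.ξ (mulμ D.μ u) = D.μ i • fv + x' := by
    have h1 : D.ξ (mulμ D.μ u) = fc - y' - fa := by rw [e3, e1]; abel
    have h2 : fc - y' - fa = (fc - (fa + D.μ i • fv)) - y' + D.μ i • fv := by abel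
    rw [h1, h2, e']; abel
  have g3 : D.ξ (mulμ D.μ u - D.μ i • u) ∈ H := by
    have h1 : D.ξ (mulμ D.μ u - D.μ i • u) = x' - D.μ i • x := by
      rw [map_sub, map_smul, g1, g2, smul_add]; abel
    rw [h1]
    exact H.sub_mem hx'.1 (H.smul_mem _ hx.1)
  obtain ⟨w, hw, ew⟩ := hvm _ g3 (D.hv _)
  have hu : u ∈ coordSub K S := by
    refine mem_of_mulμ D.μ_inj hi ?_
    rw [D.iξ ew]; exact hw
  have hfaH : fa ∈ H := by
    rw [e1]; exact mem_sub2.mpr ⟨0, hz, u, hu, by rw [map_zero, zero_add]⟩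
  have hfvH : fv ∈ H := by
    have h1 : fv = D.ξ u - x := by rw [g1]; abel
    rw [h1]
    exact H.sub_mem (mem_sub2.mpr ⟨u, hu, 0, hz, by rw [map_zero, add_zero]⟩) hx.1
  constructor
  · intro v hv
    have : v = v1 := Subtype.ext hv
    rw [this, ev, mkQ_zero hfvH]
  · intro v hv
    have : v = a1 := Subtype.ext hv
    rw [this, ea, mkQ_zero hfaH]

theorem good [FiniteDimensional K V] : Good m {Fv, Fa, Fb, Fc} (sub2 D.ξ D.a) where
  mem_iff := fun p H => by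
    constructor
    · rintro ⟨h1, h2⟩
      exact D.classify h1 h2
    · rintro ⟨S, rfl, rfl⟩
      exact ⟨finrank_sub2 D.joint S, fun F hF => D.card_le S hF⟩
  inj := sub2_injective D.joint
  exact := fun S F hF => D.exact S hF
  dim := fun S => finrank_sub2 D.joint S
  tangent := fun S φ hφ => D.tangent S φ hφ

end Delta

/-! ### The second type -/

/-- Second type: `Fv` is large, the other three are pairwise disjoint. -/
structure Ypsi (m : ℕ) (Fv Fa Fb Fc : Submodule K V) where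
  a : (Fin m → K) →ₗ[K] V
  b : (Fin m → K) →ₗ[K] V
  μ : Fin m → K
  μ_inj : Function.Injective μ
  ha : ∀ u, a u ∈ Fa
  hb : ∀ u, b u ∈ Fb
  hc : ∀ u, a u + b u ∈ Fc
  hv : ∀ u, a u + b (mulμ μ u) ∈ Fv
  ib : ∀ u, b u ∈ Fv → u = 0
  complete : ∀ fa ∈ Fa, ∀ fb ∈ Fb, fa + fb ∈ Fc → ∃ u, fa = a u ∧ fb = b u
  ab : Fa ⊓ Fb = ⊥
  ac : Fa ⊓ Fc = ⊥
  bc : Fb ⊓ Fc = ⊥

namespace Ypsi

variable {Fv Fa Fb Fc : Submodule K V} (D : Ypsi m Fv Fa Fb Fc)

lemma ia {u : Fin m → K} (h : D.a u = 0) : u = 0 := by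
  have h1 := D.hc u
  rw [h, zero_add] at h1
  have h2 : D.b u ∈ Fb ⊓ Fc := ⟨D.hb u, h1⟩
  rw [D.bc] at h2
  have h3 : D.b u = 0 := h2
  exact D.ib u (by rw [h3]; exact Fv.zero_mem)

lemma joint (x y : Fin m → K) (h : D.a x + D.b y = 0) : x = 0 ∧ y = 0 := by
  have h1 : D.a x = - D.b y := by rw [eq_neg_iff_add_eq_zero]; exact h
  have h2 : D.a x ∈ Fa ⊓ Fb := ⟨D.ha x, by rw [h1]; exact Fb.neg_mem (D.hb y)⟩
  rw [D.ab] at h2
  have h3 : D.a x = 0 := h2
  rw [h3, zero_add] at h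
  exact ⟨D.ia h3, D.ib y (by rw [h]; exact Fv.zero_mem)⟩

lemma le_inf [FiniteDimensional K V] (S : Finset (Fin m)) {F : Submodule K V}
    (ι : (Fin m → K) →ₗ[K] V) (hι : Function.Injective ι)
    (hF : ∀ u ∈ coordSub K S, ι u ∈ F) (hH : ∀ u ∈ coordSub K S, ι u ∈ sub2 D.a D.b S) :
    S.card ≤ finrank K ↥(sub2 D.a D.b S ⊓ F) := by
  rw [← finrank_coordSub (K := K) S, ← finrank_map_inj hι]
  refine Submodule.finrank_mono ?_
  rintro _ ⟨u, hu, rfl⟩
  exact ⟨hH u hu, hF u hu⟩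

lemma card_le [FiniteDimensional K V] (S : Finset (Fin m)) {F : Submodule K V}
    (hF : F ∈ ({Fv, Fa, Fb, Fc} : Set (Submodule K V))) :
    S.card ≤ finrank K ↥(sub2 D.a D.b S ⊓ F) := by
  simp only [Set.mem_insert_iff, Set.mem_singleton_iff] at hF
  have hz : (0 : Fin m → K) ∈ coordSub K S := Submodule.zero_mem _
  rcases hF with rfl | rfl | rfl | rfl
  · refine D.le_inf S (D.a + D.b ∘ₗ mulμ D.μ) ?_ (fun u _ => D.hv u)
      (fun u hu => mem_sub2.mpr ⟨u, hu, mulμ D.μ u, mulμ_mem hu, rfl⟩)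
    rw [← LinearMap.ker_eq_bot, LinearMap.ker_eq_bot']
    intro u hu
    exact (D.joint u _ hu).1
  · refine D.le_inf S D.a (f_inj D.joint) (fun u _ => D.ha u)
      (fun u hu => mem_sub2.mpr ⟨u, hu, 0, hz, ?_⟩)
    rw [map_zero, add_zero]
  · refine D.le_inf S D.b (g_inj D.joint) (fun u _ => D.hb u)
      (fun u hu => mem_sub2.mpr ⟨0, hz, u, hu, ?_⟩)
    rw [map_zero, zero_add]
  · refine D.le_inf S (D.a + D.b) ?_ (fun u _ => D.hc u)
      (fun u hu => mem_sub2.mpr ⟨u, hu, u, hu, rfl⟩)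
    rw [← LinearMap.ker_eq_bot, LinearMap.ker_eq_bot']
    intro u hu
    exact (D.joint u u hu).1

/-- vectors of `Fv` in the span -/
lemma mem_v {x y : Fin m → K} (h : D.a x + D.b y ∈ Fv) : y = mulμ D.μ x := by
  have h1 : D.b (y - mulμ D.μ x) ∈ Fv := by
    have : D.b (y - mulμ D.μ x) = (D.a x + D.b y) - (D.a x + D.b (mulμ D.μ x)) := by
      rw [map_sub]; abel
    rw [this]
    exact Fv.sub_mem h (D.hv x)
  exact sub_eq_zero.mp (D.ib _ h1)

theorem classify [FiniteDimensional K V] {p : ℕ} {H : Submodule K V} (hH : finrank K H = 2 * p)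
    (hF : ∀ F ∈ ({Fv, Fa, Fb, Fc} : Set (Submodule K V)), p ≤ finrank K ↥(H ⊓ F)) :
    finrank K ↥(H ⊓ Fv) = p ∧ ∃ S, S.card = p ∧ H = sub2 D.a D.b S := by
  classical
  have h1 := hF Fv (by simp)
  have h2 := hF Fa (by simp)
  have h3 := hF Fb (by simp)
  have h4 := hF Fc (by simp)
  obtain ⟨da, db, sab⟩ := split hH h2 h3 D.ab
  obtain ⟨_, dc, sac⟩ := split hH h2 h4 D.ac
  obtain ⟨_, _, sbc⟩ := split hH h3 h4 D.bc
  set P : Submodule K (Fin m → K) := H.comap D.a ⊓ H.comap D.b with hP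
  have hmapa : P.map D.a = H ⊓ Fa := by
    apply le_antisymm
    · rintro _ ⟨u, hu, rfl⟩
      exact ⟨hu.1, D.ha u⟩
    · rintro h ⟨hh, hha⟩
      obtain ⟨x, hx, y, hy, e⟩ := sbc h hh
      obtain ⟨u, e1, e2⟩ := D.complete h hha (-x) (Fb.neg_mem hx.2)
        (by have : h + -x = y := by rw [e]; abel
            rw [this]; exact hy.2)
      refine ⟨u, ⟨?_, ?_⟩, e1.symm⟩
      · show D.a u ∈ H
        rw [← e1]; exact hh
      · show D.b u ∈ H
        rw [← e2]; exact H.neg_mem hx.1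
  have hPp : finrank K P = p := by
    rw [← finrank_map_inj (f_inj D.joint) P, hmapa, da]
  have hmapb : P.map D.b = H ⊓ Fb := by
    refine Submodule.eq_of_le_of_finrank_eq ?_ ?_
    · rintro _ ⟨u, hu, rfl⟩
      exact ⟨hu.2, D.hb u⟩
    · rw [finrank_map_inj (g_inj D.joint), hPp, db]
  -- the large subspace
  have hrep : ∀ h ∈ H ⊓ Fv, ∃ u ∈ P, mulμ D.μ u ∈ P ∧ h = D.a u + D.b (mulμ D.μ u) := by
    rintro h ⟨hh, hhv⟩
    obtain ⟨x, hx, y, hy, e⟩ := sab h hh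
    rw [← hmapa] at hx
    rw [← hmapb] at hy
    obtain ⟨u, hu, rfl⟩ := hx
    obtain ⟨w, hw, rfl⟩ := hy
    have h5 : w = mulμ D.μ u := D.mem_v (by rw [← e]; exact hhv)
    rw [h5] at hw e
    exact ⟨u, hu, hw, e⟩
  set Q : Submodule K (Fin m → K) := P ⊓ P.comap (mulμ D.μ) with hQ
  have hmapv : H ⊓ Fv ≤ Q.map (D.a + D.b ∘ₗ mulμ D.μ) := by
    intro h hh
    obtain ⟨u, hu, hu', e⟩ := hrep h hh
    exact ⟨u, ⟨hu, hu'⟩, e.symm⟩
  have hvinj : Function.Injective (D.a + D.b ∘ₗ mulμ D.μ) := by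
    rw [← LinearMap.ker_eq_bot, LinearMap.ker_eq_bot']
    intro u hu
    exact (D.joint u _ hu).1
  have h6 := Submodule.finrank_mono hmapv
  rw [finrank_map_inj hvinj] at h6
  have h7 : Q ≤ P := inf_le_left
  have h8 := Submodule.finrank_mono h7
  have h9 : Q = P := Submodule.eq_of_le_of_finrank_eq h7 (by omega)
  have hinv : ∀ u ∈ P, (fun i => D.μ i * u i) ∈ P := by
    intro u hu
    rw [← h9] at hu
    exact hu.2
  obtain ⟨S, hS⟩ := eq_coordSub_of_invariant D.μ_inj P hinv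
  refine ⟨by omega, S, ?_, ?_⟩
  · rw [← finrank_coordSub (K := K) S, ← hS, hPp]
  · rw [sub2, ← hS, hmapa, hmapb]
    apply le_antisymm
    · intro h hh
      obtain ⟨x, hx, y, hy, e⟩ := sab h hh
      rw [e]
      exact Submodule.add_mem_sup hx hy
    · exact sup_le inf_le_left inf_le_left

theorem exact [FiniteDimensional K V] (S : Finset (Fin m)) {F : Submodule K V}
    (hF : F ∈ ({Fv, Fa, Fb, Fc} : Set (Submodule K V))) :
    finrank K ↥(sub2 D.a D.b S ⊓ F) = S.card := by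
  have h0 := finrank_sub2 D.joint S
  have hv := (D.classify h0 (fun F hF => D.card_le S hF)).1
  have hc := fun {F : Submodule K V} (hF : F ∈ ({Fv, Fa, Fb, Fc} : Set (Submodule K V))) =>
    D.card_le S hF
  simp only [Set.mem_insert_iff, Set.mem_singleton_iff] at hF hc
  rcases hF with rfl | rfl | rfl | rfl
  · exact hv
  · exact (split h0 (hc (by simp)) (hc (by simp)) D.ab).1
  · exact (split h0 (hc (by simp)) (hc (by simp)) D.ab).2.1
  · exact (split h0 (hc (by simp)) (hc (by simp)) D.ac).2.1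

theorem tangent [FiniteDimensional K V] (S : Finset (Fin m))
    (φ : ↥(sub2 D.a D.b S) →ₗ[K] (V ⧸ sub2 D.a D.b S))
    (hφ : ∀ F ∈ ({Fv, Fa, Fb, Fc} : Set (Submodule K V)), ∀ v : ↥(sub2 D.a D.b S), (v : V) ∈ F →
      ∃ f ∈ F, φ v = (sub2 D.a D.b S).mkQ f) : φ = 0 := by
  classical
  set H := sub2 D.a D.b S with hH
  have hz : (0 : Fin m → K) ∈ coordSub K S := Submodule.zero_mem _
  apply Delta.eq_zero_of_basis
  intro i hi
  have hei : (Pi.single i 1 : Fin m → K) ∈ coordSub K S :=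
    (single_mem_coordSub one_ne_zero).mpr hi
  have ha1 : D.a (Pi.single i 1) ∈ H := mem_sub2.mpr ⟨_, hei, 0, hz, by rw [map_zero, add_zero]⟩
  have hb1 : D.b (Pi.single i 1) ∈ H := mem_sub2.mpr ⟨0, hz, _, hei, by rw [map_zero, zero_add]⟩
  have hmu : mulμ D.μ (Pi.single i 1) = D.μ i • (Pi.single i 1 : Fin m → K) := by
    funext k
    by_cases hk : k = i
    · subst hk; simp
    · simp [hk]
  set a1 : ↥H := ⟨D.a (Pi.single i 1), ha1⟩ with ha1'
  set b1 : ↥H := ⟨D.b (Pi.single i 1), hb1⟩ with hb1'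
  obtain ⟨fa, hfa, ea⟩ := hφ Fa (by simp) a1 (D.ha _)
  obtain ⟨fb, hfb, eb⟩ := hφ Fb (by simp) b1 (D.hb _)
  obtain ⟨fc, hfc, ec⟩ := hφ Fc (by simp) (a1 + b1) (D.hc _)
  obtain ⟨fv, hfv, ev⟩ := hφ Fv (by simp) (a1 + D.μ i • b1) (by
    have h1 := D.hv (Pi.single i 1)
    rw [hmu, map_smul] at h1
    exact h1)
  have r1 : fa + fb - fc ∈ H := by
    apply Delta.sub_of_mkQ
    rw [← ec, map_add, map_add, ea, eb]
  have r2 : (fa + D.μ i • fb) - fv ∈ H := by
    apply Delta.sub_of_mkQ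
    rw [← ev, map_add, map_add, map_smul, map_smul, ea, eb]
  obtain ⟨x, hx, y, hy, e⟩ := mem_sub2.mp r1
  obtain ⟨x', hx', y', hy', e'⟩ := mem_sub2.mp r2
  obtain ⟨u, e1, e2⟩ := D.complete (fa - D.a x) (Fa.sub_mem hfa (D.ha x)) (fb - D.b y)
    (Fb.sub_mem hfb (D.hb y))
    (by have : fa - D.a x + (fb - D.b y) = fc := by
          have h1 : fa - D.a x + (fb - D.b y) = (fa + fb - fc) - (D.a x + D.b y) + fc := by abel
          rw [h1, e]; abel
        rw [this]; exact hfc)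
  have e1' : fa = D.a (u + x) := by rw [map_add, ← e1]; abel
  have e2' : fb = D.b (u + y) := by rw [map_add, ← e2]; abel
  have h3 : D.a (u + x - x') + D.b (D.μ i • (u + y) - y') ∈ Fv := by
    have : D.a (u + x - x') + D.b (D.μ i • (u + y) - y') = fv := by
      rw [map_sub, map_sub, map_smul, ← e1', ← e2']
      have h1 : fa - D.a x' + (D.μ i • fb - D.b y') =
        ((fa + D.μ i • fb) - fv) - (D.a x' + D.b y') + fv := by abel
      rw [h1, e']; abel
    rw [this]; exact hfv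
  have h4 := D.mem_v h3
  have hu : u ∈ coordSub K S := by
    refine mem_of_mulμ D.μ_inj hi ?_
    have h5 : mulμ D.μ u - D.μ i • u =
        D.μ i • y - y' - mulμ D.μ (x - x') := by
      have h6 : mulμ D.μ u = D.μ i • (u + y) - y' - mulμ D.μ (x - x') := by
        rw [h4, ← map_sub]
        congr 1; abel
      rw [h6, smul_add]; abel
    rw [h5]
    exact Submodule.sub_mem _ (Submodule.sub_mem _ (Submodule.smul_mem _ _ hy) hy')
      (mulμ_mem (Submodule.sub_mem _ hx hx'))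
  have hfaH : fa ∈ H := by
    rw [e1']
    exact mem_sub2.mpr ⟨u + x, Submodule.add_mem _ hu hx, 0, hz, by rw [map_zero, add_zero]⟩
  have hfbH : fb ∈ H := by
    rw [e2']
    exact mem_sub2.mpr ⟨0, hz, u + y, Submodule.add_mem _ hu hy, by rw [map_zero, zero_add]⟩
  constructor
  · intro v hv
    have : v = a1 := Subtype.ext hv
    rw [this, ea, Delta.mkQ_zero hfaH]
  · intro v hv
    have : v = b1 := Subtype.ext hv
    rw [this, eb, Delta.mkQ_zero hfbH]

theorem good [FiniteDimensional K V] : Good m {Fv, Fa, Fb, Fc} (sub2 D.a D.b) where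
  mem_iff := fun p H => by
    constructor
    · rintro ⟨h1, h2⟩
      exact (D.classify h1 h2).2
    · rintro ⟨S, rfl, rfl⟩
      exact ⟨finrank_sub2 D.joint S, fun F hF => D.card_le S hF⟩
  inj := sub2_injective D.joint
  exact := fun S F hF => D.exact S hF
  dim := fun S => finrank_sub2 D.joint S
  tangent := fun S φ hφ => D.tangent S φ hφ

end Ypsi

end Pool.Agent.Quad4
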