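import Mathlib
import Pool.Agent.Quad4.Core
import Pool.Agent.Quad4.Types
import Pool.Agent.Quad4.Coords

/-!
# Four secant flags of the two types
-/

set_option autoImplicit false

namespace Pool.Agent.Quad4

open Module Polynomial Pool.Agent.SignAlternation Pool.Agent.Quadruple
open Pool.Agent.SecantPosition hiding pair
open Finset (range mem_range)

/-! ### The coordinate maps with a gap -/

/-- coordinates with a gap -/
noncomputable def Lmap (S T : ℕ → ℝ) (n N M g : ℕ) (e : ℝ) : (Fin n → ℂ) →ₗ[ℂ] (Fin N → ℂ) :=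
  LinearMap.pi fun i : Fin N => (eps M e i : ℂ) • pairL n (bern S T n (kap M g i))

lemma Lmap_apply (S T : ℕ → ℝ) (n N M g : ℕ) (e : ℝ) (v : Fin n → ℂ) (i : Fin N) :
    Lmap S T n N M g e v i = (eps M e i : ℂ) * pairL n (bern S T n (kap M g i)) v := rfl

lemma Lmap_star (S T : ℕ → ℝ) (n N M g : ℕ) (e : ℝ) (v : Fin n → ℂ) :
    Lmap S T n N M g e (star v) = star (Lmap S T n N M g e v) := by
  funext i
  rw [Lmap_apply, pairL_star, Pi.star_apply, Lmap_apply, star_mul', RCLike.star_def,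
    Complex.conj_ofReal]

lemma pair_Lmap (S T : ℕ → ℝ) (M q g : ℕ) (e : ℝ) (c : Fin (M + q) → ℝ)
    (v : Fin (M + q + g) → ℂ) :
    pair c (Lmap S T (M + q + g) (M + q) M g e v) =
      pairL (M + q + g)
        (∑ i ∈ range (M + q + g), C (hat M g e (ext c) i) * bern S T (M + q + g) i) v := by
  rw [sum_hat M g q e (ext c) (C : ℝ →+* ℝ[X]) (fun i => bern S T (M + q + g) i), pairL_sum, pair,
    Finset.sum_range]
  refine Finset.sum_congr rfl fun i _ => ?_
  rw [pairL_C_mul, Lmap_apply, ext_lt c i.2]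
  push_cast
  ring

lemma pair_Lmap_eq_zero {S T U : ℕ → ℝ} {M q g d : ℕ} {e : ℝ} {c : Fin (M + q) → ℝ}
    (hc : c ∈ Esp S T (M + q + g) (M + q) M g e U d) {t : Fin (M + q + g) → ℝ}
    (hU : ∀ a : Fin (M + q + g), U a = t a) {v : Fin (M + q + g) → ℂ} (hv : v ∈ sflag t d) :
    pair c (Lmap S T (M + q + g) (M + q) M g e v) = 0 := by
  rw [pair_Lmap, pairL_apply]
  by_cases hn : M + q + g = 0
  · have : ∀ b : Fin (M + q + g), False := fun b => by have := b.2; omega
    rw [SecantPosition.pair]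
    exact Finset.sum_eq_zero fun b _ => (this b).elim
  refine pair_sflag _ ?_ t d (fun a ha => ?_) hv
  · have h1 := degree_sum_bern_lt S T (N := M + q + g) (hat M g e (ext c))
    by_cases h0 : (∑ i ∈ range (M + q + g), C (hat M g e (ext c) i) * bern S T (M + q + g) i) = 0
    · rw [h0, natDegree_zero]; omega
    · rw [degree_eq_natDegree h0] at h1
      exact_mod_cast h1
  · rw [← hU]
    exact Esp_eval hc ha

/-- the hypotheses on spaces of vectors -/
lemma vec_of_flags {S T U W : ℕ → ℝ} {m z q g du dw : ℕ} (D : Data m z q du dw)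
    (hEu : D.Eu = Esp S T (m + z + q + g) (m + z + q) (m + z) g 1 U du)
    (hEw : D.Ew = Esp S T (m + z + q + g) (m + z + q) (m + z) g ((-1) ^ g) W dw)
    {tu tw : Fin (m + z + q + g) → ℝ} (hU : ∀ a : Fin (m + z + q + g), U a = tu a)
    (hW : ∀ a : Fin (m + z + q + g), W a = tw a)
    (htu : Function.Injective tu) (htw : Function.Injective tw)
    (hdu : du ≤ m + z + q + g) (hdw : dw ≤ m + z + q + g)
    (iu : ∀ v ∈ sflag tu du, Lmap S T (m + z + q + g) (m + z + q) (m + z) g 1 v = 0 → v = 0)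
    (iw : ∀ v ∈ sflag tw dw,
      Lmap S T (m + z + q + g) (m + z + q) (m + z) g ((-1) ^ g) v = 0 → v = 0) :
    D.Vec ((sflag tu du).map (Lmap S T (m + z + q + g) (m + z + q) (m + z) g 1))
      ((sflag tw dw).map (Lmap S T (m + z + q + g) (m + z + q) (m + z) g ((-1) ^ g))) where
  fu := by
    have h1 := LinearMap.finrank_range_of_inj (f := (Lmap S T (m + z + q + g) (m + z + q)
      (m + z) g 1).domRestrict (sflag tu du)) (by
        rw [← LinearMap.ker_eq_bot, LinearMap.ker_eq_bot']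
        rintro ⟨v, hv⟩ h
        exact Subtype.ext (iu v hv h))
    rw [LinearMap.range_domRestrict, finrank_sflag hdu htu] at h1
    exact h1
  fw := by
    have h1 := LinearMap.finrank_range_of_inj (f := (Lmap S T (m + z + q + g) (m + z + q)
      (m + z) g ((-1) ^ g)).domRestrict (sflag tw dw)) (by
        rw [← LinearMap.ker_eq_bot, LinearMap.ker_eq_bot']
        rintro ⟨v, hv⟩ h
        exact Subtype.ext (iw v hv h))
    rw [LinearMap.range_domRestrict, finrank_sflag hdw htw] at h1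
    exact h1
  au := by
    rintro c hc _ ⟨v, hv, rfl⟩
    rw [hEu] at hc
    exact pair_Lmap_eq_zero hc hU hv
  aw := by
    rintro c hc _ ⟨v, hv, rfl⟩
    rw [hEw] at hc
    exact pair_Lmap_eq_zero hc hW hv
  su := by
    rintro _ ⟨v, hv, rfl⟩
    exact ⟨star v, sflag_star _ _ hv, Lmap_star _ _ _ _ _ _ _ _⟩
  sw := by
    rintro _ ⟨v, hv, rfl⟩
    exact ⟨star v, sflag_star _ _ hv, Lmap_star _ _ _ _ _ _ _ _⟩

/-- The input data of the core attached to two blocks of nodes. -/
noncomputable def dataOf {S T U W : ℕ → ℝ} {m z q : ℕ} (g : ℕ) {du dw : ℕ}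
    (hST : ∀ k l, S k ≠ T l) (hU : Inner S T U) (hW : Outer S T W)
    (iU : ∀ i < du, ∀ j < du, U i = U j → i = j) (iW : ∀ i < dw, ∀ j < dw, W i = W j → i = j)
    (hu : m + z ≤ du) (hw : m + z ≤ dw) (hsum : du + dw = m + q + 2 * z) : Data m z q du dw where
  Eu := Esp S T (m + z + q + g) (m + z + q) (m + z) g 1 U du
  Ew := Esp S T (m + z + q + g) (m + z + q) (m + z) g ((-1) ^ g) W dw
  hEu := finrank_Esp _ _ _ _ _ _ _ _ _
  hEw := finrank_Esp _ _ _ _ _ _ _ _ _
  hu := hu
  hw := hw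
  hsum := hsum
  altU := fun _ hc h0 => Esp_alt_inner hST hU iU hc h0
  altW := fun _ hc h0 => Esp_alt_outer hST hW iW hc h0

/-! ### Embeddings -/

section emb

variable {m z q : ℕ}

/-- embedding of the first coordinates -/
noncomputable def emb1 (m z q : ℕ) : (Fin m → ℂ) →ₗ[ℂ] (Fin (m + z + q) → ℂ) where
  toFun x := fun i => if h : (i : ℕ) < m then x ⟨i, h⟩ else 0
  map_add' x y := by
    funext i
    by_cases h : (i : ℕ) < m <;> simp [h]
  map_smul' c x := by
    funext i
    by_cases h : (i : ℕ) < m <;> simp [h]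

/-- embedding of the last coordinates -/
noncomputable def emb3 (m z q : ℕ) : (Fin q → ℂ) →ₗ[ℂ] (Fin (m + z + q) → ℂ) where
  toFun x := fun i => if h : m + z ≤ (i : ℕ) then x ⟨i - (m + z), by omega⟩ else 0
  map_add' x y := by
    funext i
    by_cases h : m + z ≤ (i : ℕ) <;> simp [h]
  map_smul' c x := by
    funext i
    by_cases h : m + z ≤ (i : ℕ) <;> simp [h]

lemma emb1_apply (x : Fin m → ℂ) (i : Fin (m + z + q)) :
    emb1 m z q x i = if h : (i : ℕ) < m then x ⟨i, h⟩ else 0 := rfl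

lemma emb3_apply (x : Fin q → ℂ) (i : Fin (m + z + q)) :
    emb3 m z q x i = if h : m + z ≤ (i : ℕ) then x ⟨i - (m + z), by omega⟩ else 0 := rfl

lemma P1_emb1 (x : Fin m → ℂ) : P1 ℂ m z q (emb1 m z q x) = x := by
  funext i
  rw [P1_apply, emb1_apply, dif_pos (by simp)]
  rfl

lemma P2_emb1 (x : Fin m → ℂ) : P2 ℂ m z q (emb1 m z q x) = 0 := by
  funext i
  rw [P2_apply, emb1_apply, dif_neg (by simp)]
  rfl

lemma P3_emb1 (x : Fin m → ℂ) : P3 ℂ m z q (emb1 m z q x) = 0 := by
  funext i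
  rw [P3_apply, emb1_apply, dif_neg (by simp only [Fin.val_natAdd]; omega)]
  rfl

lemma P1_emb3 (x : Fin q → ℂ) : P1 ℂ m z q (emb3 m z q x) = 0 := by
  funext i
  have := i.2
  rw [P1_apply, emb3_apply, dif_neg (by simp only [Fin.val_castAdd]; omega)]
  rfl

lemma P2_emb3 (x : Fin q → ℂ) : P2 ℂ m z q (emb3 m z q x) = 0 := by
  funext i
  have := i.2
  rw [P2_apply, emb3_apply, dif_neg (by simp only [Fin.val_castAdd, Fin.val_natAdd]; omega)]
  rfl

lemma P3_emb3 (x : Fin q → ℂ) : P3 ℂ m z q (emb3 m z q x) = x := by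
  funext i
  have := i.2
  rw [P3_apply, emb3_apply, dif_pos (by simp only [Fin.val_natAdd]; omega)]
  congr 1
  apply Fin.ext
  simp only [Fin.val_natAdd]
  omega

lemma star_emb1 (x : Fin m → ℂ) : emb1 m z q (star x) = star (emb1 m z q x) := by
  funext i
  rw [Pi.star_apply, emb1_apply, emb1_apply]
  by_cases h : (i : ℕ) < m
  · rw [dif_pos h, dif_pos h, Pi.star_apply]
  · rw [dif_neg h, dif_neg h, star_zero]

lemma star_emb3 (x : Fin q → ℂ) : emb3 m z q (star x) = star (emb3 m z q x) := by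
  funext i
  rw [Pi.star_apply, emb3_apply, emb3_apply]
  by_cases h : m + z ≤ (i : ℕ)
  · rw [dif_pos h, dif_pos h, Pi.star_apply]
  · rw [dif_neg h, dif_neg h, star_zero]

lemma P1_star (x : Fin (m + z + q) → ℂ) : P1 ℂ m z q (star x) = star (P1 ℂ m z q x) := rfl
lemma P2_star (x : Fin (m + z + q) → ℂ) : P2 ℂ m z q (star x) = star (P2 ℂ m z q x) := rfl
lemma P3_star (x : Fin (m + z + q) → ℂ) : P3 ℂ m z q (star x) = star (P3 ℂ m z q x) := rfl

lemma emb_eq {x : Fin (m + z + q) → ℂ} (h : P2 ℂ m z q x = 0) :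
    emb1 m z q (P1 ℂ m z q x) + emb3 m z q (P3 ℂ m z q x) = x := by
  apply ext_of_P
  · rw [map_add, P1_emb1, P1_emb3, add_zero]
  · rw [map_add, P2_emb1, P2_emb3, h, add_zero]
  · rw [map_add, P3_emb1, P3_emb3, zero_add]

lemma emb_eq' {x : Fin (m + z + q) → ℂ} (h : P2 ℂ m z q x = 0) :
    emb3 m z q (P3 ℂ m z q x) + emb1 m z q (P1 ℂ m z q x) = x := by
  rw [add_comm (emb3 m z q _)]
  exact emb_eq h

lemma low_iff {x : Fin (m + z + q) → ℂ} :
    (∀ i : Fin (m + z + q), m ≤ (i : ℕ) → x i = 0) ↔ P2 ℂ m z q x = 0 ∧ P3 ℂ m z q x = 0 := by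
  constructor
  · intro h
    refine ⟨?_, ?_⟩
    · funext i
      exact h _ (by simp only [Fin.val_castAdd, Fin.val_natAdd]; omega)
    · funext i
      exact h _ (by simp only [Fin.val_natAdd]; omega)
  · rintro ⟨h2, h3⟩ i hi
    have h1 : emb1 m z q (P1 ℂ m z q x) = x := by
      have := emb_eq h2
      rw [h3, map_zero, add_zero] at this
      exact this
    rw [← h1, emb1_apply, dif_neg (by omega)]

lemma high_iff {x : Fin (m + z + q) → ℂ} :
    (∀ i : Fin (m + z + q), (i : ℕ) < m + z → x i = 0) ↔ P1 ℂ m z q x = 0 ∧ P2 ℂ m z q x = 0 := by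
  constructor
  · intro h
    refine ⟨?_, ?_⟩
    · funext i
      have := i.2
      exact h _ (by simp only [Fin.val_castAdd]; omega)
    · funext i
      have := i.2
      exact h _ (by simp only [Fin.val_castAdd, Fin.val_natAdd]; omega)
  · rintro ⟨h1, h2⟩ i hi
    have h3 : emb3 m z q (P3 ℂ m z q x) = x := by
      have := emb_eq h2
      rw [h1, map_zero, zero_add] at this
      exact this
    rw [← h3, emb3_apply, dif_neg (by omega)]

end emb

lemma star_mem_sub2 {n m : ℕ} {f g : (Fin m → ℂ) →ₗ[ℂ] (Fin n → ℂ)}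
    (hf : ∀ u, f (star u) = star (f u)) (hg : ∀ u, g (star u) = star (g u)) (S : Finset (Fin m))
    {v : Fin n → ℂ} (hv : v ∈ sub2 f g S) : star v ∈ sub2 f g S := by
  obtain ⟨x, hx, y, hy, rfl⟩ := mem_sub2.mp hv
  refine mem_sub2.mpr ⟨star x, fun i hi => ?_, star y, fun i hi => ?_, ?_⟩
  · rw [Pi.star_apply, hx i hi, star_zero]
  · rw [Pi.star_apply, hy i hi, star_zero]
  · rw [star_add, hf, hg]

lemma vecMul_eq_zero {m : ℕ} {V : Matrix (Fin m) (Fin m) ℝ} (hV : V.det ≠ 0) {u : Fin m → ℂ}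
    (h : Matrix.vecMul u (V.map (algebraMap ℝ ℂ)) = 0) : u = 0 := by
  have hVc : (V.map (algebraMap ℝ ℂ)).det ≠ 0 := by
    have := (algebraMap ℝ ℂ).map_det V
    rw [RingHom.mapMatrix_apply] at this
    rw [← this]
    exact (_root_.map_ne_zero _).mpr hV
  exact Matrix.eq_zero_of_vecMul_eq_zero hVc h

/-- A solution family with a real structure. -/
def GoodReal {n : ℕ} (m : ℕ) (Fs : Set (Submodule ℂ (Fin n → ℂ))) : Prop :=
  ∃ sub : Finset (Fin m) → Submodule ℂ (Fin n → ℂ), Good m Fs sub ∧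
    ∀ S, ∀ v ∈ sub S, star v ∈ sub S

/-- **First type.** -/
theorem good_delta {S T U W : ℕ → ℝ} {m z q du dw : ℕ}
    (hST : ∀ k l, S k ≠ T l) (hU : Inner S T U) (hW : Outer S T W)
    {tt ts tu tw : Fin (m + z + q) → ℝ}
    (eS : ∀ a : Fin (m + z + q), S a = ts a) (eT : ∀ a : Fin (m + z + q), T a = tt a)
    (eU : ∀ a : Fin (m + z + q), U a = tu a) (eW : ∀ a : Fin (m + z + q), W a = tw a)
    (its : Function.Injective ts) (itt : Function.Injective tt) (itu : Function.Injective tu)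
    (itw : Function.Injective tw)
    (hdu : du ≤ m + z + q) (hdw : dw ≤ m + z + q)
    (hu : m + z ≤ du) (hw : m + z ≤ dw) (hsum : du + dw = m + q + 2 * z)
    (hs0 : sflag tt m ⊓ sflag ts q = ⊥) (hw0 : sflag tt m ⊓ sflag tw dw = ⊥)
    (hu0 : sflag tt m ⊓ sflag tu du = ⊥) :
    GoodReal m {sflag tt m, sflag ts q, sflag tw dw, sflag tu du} := by
  classical
  have iU : ∀ i < du, ∀ j < du, U i = U j → i = j := by
    intro i hi j hj h
    have h1 := eU ⟨i, by omega⟩
    have h2 := eU ⟨j, by omega⟩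
    exact congrArg Fin.val (itu (h1.symm.trans (h.trans h2)))
  have iW : ∀ i < dw, ∀ j < dw, W i = W j → i = j := by
    intro i hi j hj h
    have h1 := eW ⟨i, by omega⟩
    have h2 := eW ⟨j, by omega⟩
    exact congrArg Fin.val (itw (h1.symm.trans (h.trans h2)))
  set D := dataOf (m := m) (z := z) (q := q) 0 hST hU hW iU iW hu hw hsum with hD
  obtain ⟨μ, V, hμ, hμ0, hV, hout⟩ := Data.exists_out D
  set L1 := Lmap S T (m + z + q + 0) (m + z + q) (m + z) 0 1 with hL1
  set L2 := Lmap S T (m + z + q + 0) (m + z + q) (m + z) 0 ((-1) ^ 0) with hL2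
  have hkap : ∀ i, kap (m + z) 0 i = i := fun i => by simp [kap]
  have hL1P : ∀ v : Fin (m + z + q) → ℂ, L1 v = Phi S T (m + z + q) v := by
    intro v
    funext i
    rw [hL1, Lmap_apply, Phi_apply, hkap]
    simp [eps]
  have hL2P : ∀ v : Fin (m + z + q) → ℂ, L2 v = Phi S T (m + z + q) v := by
    intro v
    funext i
    rw [hL2, Lmap_apply, Phi_apply, hkap]
    simp [eps]
  have hPinj := Phi_injective hST (m + z + q)
  have hvec : D.Vec ((sflag tu du).map L1) ((sflag tw dw).map L2) := by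
    refine vec_of_flags D rfl rfl eU eW itu itw hdu hdw ?_ ?_
    · intro v _ h
      exact hPinj (by rw [← hL1P, map_zero]; exact h)
    · intro v _ h
      exact hPinj (by rw [← hL2P, map_zero]; exact h)
  obtain ⟨O⟩ := hout _ _ hvec
  let E : (Fin (m + z + q) → ℂ) ≃ₗ[ℂ] (Fin (m + z + q) → ℂ) :=
    LinearEquiv.ofBijective (Phi S T (m + z + q)) ⟨hPinj, Phi_surjective hST _⟩
  have hE : ∀ v, Phi S T (m + z + q) (E.symm v) = v := fun v => by
    have h1 : E (E.symm v) = v := E.apply_symm_apply v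
    exact h1
  have hE' : ∀ v, E.symm (Phi S T (m + z + q) v) = v := fun v => by
    have h1 : E.symm (E v) = v := E.symm_apply_apply v
    exact h1
  have hEstar : ∀ v, E.symm (star v) = star (E.symm v) := fun v => by
    apply hPinj
    rw [hE, Phi_star, hE]
  have memT : ∀ v : Fin (m + z + q) → ℂ, v ∈ sflag tt m ↔
      P2 ℂ m z q (Phi S T (m + z + q) v) = 0 ∧ P3 ℂ m z q (Phi S T (m + z + q) v) = 0 := by
    intro v
    rw [mem_second hST (by omega) itt eT, low_iff]
  have memS : ∀ v : Fin (m + z + q) → ℂ, v ∈ sflag ts q ↔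
      P1 ℂ m z q (Phi S T (m + z + q) v) = 0 ∧ P2 ℂ m z q (Phi S T (m + z + q) v) = 0 := by
    intro v
    rw [mem_first hST (by omega) its eS, Nat.add_sub_cancel, high_iff]
  have memU : ∀ u, E.symm (O.U u) ∈ sflag tu du := by
    intro u
    obtain ⟨v, hv, e⟩ := O.Umem u
    have h1 : Phi S T (m + z + q) v = O.U u := by rw [← e]; exact (hL1P v).symm
    rw [← h1, hE']; exact hv
  have memW : ∀ u, E.symm (O.W u) ∈ sflag tw dw := by
    intro u
    obtain ⟨v, hv, e⟩ := O.Wmem u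
    have h1 : Phi S T (m + z + q) v = O.W u := by rw [← e]; exact (hL2P v).symm
    rw [← h1, hE']; exact hv
  let μc : Fin m → ℂ := fun i => (μ i : ℂ)
  let ξ : (Fin m → ℂ) →ₗ[ℂ] (Fin (m + z + q) → ℂ) :=
    E.symm.toLinearMap ∘ₗ emb1 m z q ∘ₗ P1 ℂ m z q ∘ₗ O.W
  let a : (Fin m → ℂ) →ₗ[ℂ] (Fin (m + z + q) → ℂ) :=
    E.symm.toLinearMap ∘ₗ emb3 m z q ∘ₗ P3 ℂ m z q ∘ₗ O.W
  have hξ : ∀ u, ξ u = E.symm (emb1 m z q (P1 ℂ m z q (O.W u))) := fun u => rfl
  have ha : ∀ u, a u = E.symm (emb3 m z q (P3 ℂ m z q (O.W u))) := fun u => rfl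
  have hsumW : ∀ u, a u + ξ u = E.symm (O.W u) := by
    intro u
    rw [hξ, ha, ← map_add, emb_eq' (O.W2 u)]
  have hsumU : ∀ u, a u + ξ (mulμ μc u) = E.symm (O.U u) := by
    intro u
    have h1 : P1 ℂ m z q (O.W (mulμ μc u)) = P1 ℂ m z q (O.U u) := by
      rw [O.W1, O.U1]; rfl
    rw [hξ, ha, ← map_add, h1, ← O.UW, emb_eq' (O.U2 u)]
  refine ⟨sub2 ξ a, Delta.good (Fv := sflag tt m) (Fa := sflag ts q) (Fb := sflag tw dw)
    (Fc := sflag tu du)
    { ξ := ξ
      a := a
      μ := μc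
      μ_inj := fun i j h => hμ (Complex.ofReal_injective h)
      hv := fun u => by
        rw [memT, hξ, hE]
        exact ⟨P2_emb1 _, P3_emb1 _⟩
      iξ := by
        rw [← LinearMap.ker_eq_bot, LinearMap.ker_eq_bot']
        intro u hu
        rw [hξ] at hu
        have h1 : emb1 m z q (P1 ℂ m z q (O.W u)) = 0 := by
          have := congrArg E hu
          rw [LinearEquiv.apply_symm_apply, map_zero] at this
          exact this
        have h2 : P1 ℂ m z q (O.W u) = 0 := by rw [← P1_emb1 (z := z) (q := q)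
          (P1 ℂ m z q (O.W u)), h1, map_zero]
        rw [O.W1] at h2
        exact vecMul_eq_zero hV h2
      ha := fun u => by
        rw [memS, ha, hE]
        exact ⟨P1_emb3 _, P2_emb3 _⟩
      hb := fun u => by rw [hsumW]; exact memW u
      hc := fun u => by rw [hsumU]; exact memU u
      complete := by
        intro fa hfa fb hfb fc hfc h1 h2
        rw [memT, map_sub, map_sub, map_sub, sub_eq_zero, sub_eq_zero] at h1 h2
        rw [memS] at hfa
        obtain ⟨u, e1, e2⟩ := O.complete (L1 fc) ⟨fc, hfc, rfl⟩ (L2 fb) ⟨fb, hfb, rfl⟩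
          (by rw [hL1P, h2.1]; exact hfa.2) (by rw [hL2P, h1.1]; exact hfa.2)
          (by rw [hL1P, hL2P, h1.2, h2.2])
        rw [hL1P] at e1
        rw [hL2P] at e2
        have efb : fb = a u + ξ u := by rw [hsumW, ← e2, hE']
        have efc : fc = a u + ξ (mulμ μc u) := by rw [hsumU, ← e1, hE']
        refine ⟨u, ?_, efb, efc⟩
        apply hPinj
        rw [ha, hE]
        apply ext_of_P
        · rw [P1_emb3]; exact hfa.1
        · rw [P2_emb3]; exact hfa.2
        · rw [P3_emb3, ← h1.2, e2]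
      va := hs0
      vb := hw0
      vc := hu0 }, fun S v hv => ?_⟩
  refine star_mem_sub2 (fun u => ?_) (fun u => ?_) S hv
  · rw [hξ, hξ, O.starW, P1_star, star_emb1, hEstar]
  · rw [ha, ha, O.starW, P3_star, star_emb3, hEstar]

/-! ### The second type -/

lemma P1_Lmap (S T : ℕ → ℝ) (m q g : ℕ) (e : ℝ) (v : Fin (m + 0 + q + g) → ℂ) (i : Fin m) :
    P1 ℂ m 0 q (Lmap S T (m + 0 + q + g) (m + 0 + q) (m + 0) g e v) i =
      pairL (m + 0 + q + g) (bern S T (m + 0 + q + g) i) v := by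
  have hi : (i : ℕ) < m + 0 := by have := i.2; omega
  rw [P1_apply, Lmap_apply]
  have h1 : ((Fin.castAdd q (Fin.castAdd 0 i) : Fin (m + 0 + q)) : ℕ) = i := rfl
  rw [h1, eps, kap, if_pos hi, if_pos hi, Complex.ofReal_one, one_mul]

lemma P3_Lmap (S T : ℕ → ℝ) (m q g : ℕ) (e : ℝ) (v : Fin (m + 0 + q + g) → ℂ) (j : Fin q) :
    P3 ℂ m 0 q (Lmap S T (m + 0 + q + g) (m + 0 + q) (m + 0) g e v) j =
      (e : ℂ) * pairL (m + 0 + q + g) (bern S T (m + 0 + q + g) (m + j + g)) v := by
  have hj : ¬ (m + 0 + (j : ℕ)) < m + 0 := by omega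
  rw [P3_apply, Lmap_apply]
  have h1 : ((Fin.natAdd (m + 0) j : Fin (m + 0 + q)) : ℕ) = m + 0 + j := rfl
  rw [h1, eps, kap, if_neg hj, if_neg hj]
  rfl

lemma P2_zero (m q : ℕ) (x : Fin (m + 0 + q) → ℂ) : P2 ℂ m 0 q x = 0 := by
  funext i
  exact i.elim0

lemma exists_lift {A V X : Type*} [AddCommGroup A] [Module ℂ A] [AddCommGroup V] [Module ℂ V]
    [AddCommGroup X] [Module ℂ X] (F : Submodule ℂ V) (L : V →ₗ[ℂ] X)
    (hinj : ∀ v ∈ F, L v = 0 → v = 0) (f : A →ₗ[ℂ] X) (hf : ∀ u, ∃ v ∈ F, L v = f u) :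
    ∃ a : A →ₗ[ℂ] V, (∀ u, a u ∈ F) ∧ ∀ u, L (a u) = f u := by
  choose a ha1 ha2 using hf
  have huniq : ∀ x ∈ F, ∀ y ∈ F, L x = L y → x = y := by
    intro x hx y hy h
    have := hinj (x - y) (F.sub_mem hx hy) (by rw [map_sub, h, sub_self])
    exact sub_eq_zero.mp this
  refine ⟨{ toFun := a, map_add' := fun x y => ?_, map_smul' := fun c x => ?_ }, ha1, ha2⟩
  · refine huniq _ (ha1 _) _ (F.add_mem (ha1 _) (ha1 _)) ?_
    rw [map_add, ha2, ha2, ha2, map_add]
  · refine huniq _ (ha1 _) _ (F.smul_mem _ (ha1 _)) ?_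
    rw [map_smul, RingHom.id_apply, ha2, ha2, map_smul]

/-- **Second type.** -/
theorem good_ypsi {S T U W : ℕ → ℝ} {m q g du dw : ℕ}
    (hST : ∀ k l, S k ≠ T l) (hU : Inner S T U) (hW : Outer S T W)
    {tt ts tu tw : Fin (m + 0 + q + g) → ℝ}
    (eS : ∀ a : Fin (m + 0 + q + g), S a = ts a) (eT : ∀ a : Fin (m + 0 + q + g), T a = tt a)
    (eU : ∀ a : Fin (m + 0 + q + g), U a = tu a) (eW : ∀ a : Fin (m + 0 + q + g), W a = tw a)
    (its : Function.Injective ts) (itt : Function.Injective tt) (itu : Function.Injective tu)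
    (itw : Function.Injective tw)
    (hdu : du ≤ m + 0 + q + g) (hdw : dw ≤ m + 0 + q + g)
    (hu : m ≤ du) (hw : m ≤ dw) (hsum : du + dw = m + q)
    (huw : sflag tu du ⊓ sflag tw dw = ⊥) (hut : sflag tu du ⊓ sflag tt (m + g) = ⊥)
    (hwt : sflag tw dw ⊓ sflag tt (m + g) = ⊥) :
    GoodReal m {sflag ts (q + g), sflag tu du, sflag tw dw, sflag tt (m + g)} := by
  classical
  have iU : ∀ i < du, ∀ j < du, U i = U j → i = j := by
    intro i hi j hj h
    have h1 := eU ⟨i, by omega⟩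
    have h2 := eU ⟨j, by omega⟩
    exact congrArg Fin.val (itu (h1.symm.trans (h.trans h2)))
  have iW : ∀ i < dw, ∀ j < dw, W i = W j → i = j := by
    intro i hi j hj h
    have h1 := eW ⟨i, by omega⟩
    have h2 := eW ⟨j, by omega⟩
    exact congrArg Fin.val (itw (h1.symm.trans (h.trans h2)))
  set D := dataOf (m := m) (z := 0) (q := q) g hST hU hW iU iW (by omega) (by omega)
    (by omega) with hD
  obtain ⟨μ, V, hμ, hμ0, hV, hout⟩ := Data.exists_out D
  set L1 := Lmap S T (m + 0 + q + g) (m + 0 + q) (m + 0) g 1 with hL1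
  set L2 := Lmap S T (m + 0 + q + g) (m + 0 + q) (m + 0) g ((-1) ^ g) with hL2
  -- membership in the two reference flags
  have memS : ∀ v : Fin (m + 0 + q + g) → ℂ, v ∈ sflag ts (q + g) ↔
      ∀ i : Fin m, pairL (m + 0 + q + g) (bern S T (m + 0 + q + g) i) v = 0 := by
    intro v
    rw [mem_first hST (by omega) its eS]
    constructor
    · intro h i
      exact h ⟨i, by have := i.2; omega⟩ (by
        show (i : ℕ) < m + 0 + q + g - (q + g)
        have := i.2; omega)
    · intro h i hi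
      exact h ⟨i, by omega⟩
  have memT : ∀ v : Fin (m + 0 + q + g) → ℂ, v ∈ sflag tt (m + g) ↔
      ∀ j : Fin q, pairL (m + 0 + q + g) (bern S T (m + 0 + q + g) (m + j + g)) v = 0 := by
    intro v
    rw [mem_second hST (by omega) itt eT]
    constructor
    · intro h j
      exact h ⟨m + j + g, by have := j.2; omega⟩ (by
        show m + g ≤ m + (j : ℕ) + g
        omega)
    · intro h i hi
      have h1 := h ⟨i - (m + g), by have := i.2; omega⟩
      have e : m + ((i : ℕ) - (m + g)) + g = i := by omega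
      simp only [e] at h1
      exact h1
  set sg : ℂ := ((((-1 : ℝ) ^ g : ℝ)) : ℂ) with hsg
  have hsg2 : sg * sg = 1 := by
    rw [hsg, ← Complex.ofReal_mul, ← pow_add, ← two_mul, pow_mul]
    simp
  have hsgs : star sg = sg := by rw [hsg, RCLike.star_def, Complex.conj_ofReal]
  have injU : ∀ v ∈ sflag tu du, L1 v = 0 → v = 0 := by
    intro v hv h
    have h1 : v ∈ sflag tt (m + g) := by
      rw [memT]
      intro j
      have h2 := P3_Lmap S T m q g 1 v j
      rw [← hL1, h, map_zero, Complex.ofReal_one, one_mul] at h2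
      exact h2.symm
    have h3 : v ∈ sflag tu du ⊓ sflag tt (m + g) := ⟨hv, h1⟩
    rw [hut] at h3
    exact h3
  have injW : ∀ v ∈ sflag tw dw, L2 v = 0 → v = 0 := by
    intro v hv h
    have h1 : v ∈ sflag tt (m + g) := by
      rw [memT]
      intro j
      have h2 := P3_Lmap S T m q g ((-1) ^ g) v j
      rw [← hL2, h, map_zero, ← hsg] at h2
      have h3 : sg ≠ 0 := by
        rintro h4; rw [h4, zero_mul] at hsg2; exact zero_ne_one hsg2
      rcases mul_eq_zero.mp h2.symm with h4 | h4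
      · exact absurd h4 h3
      · exact h4
    have h3 : v ∈ sflag tw dw ⊓ sflag tt (m + g) := ⟨hv, h1⟩
    rw [hwt] at h3
    exact h3
  have hvec : D.Vec ((sflag tu du).map L1) ((sflag tw dw).map L2) :=
    vec_of_flags D rfl rfl eU eW itu itw hdu hdw injU injW
  obtain ⟨O⟩ := hout _ _ hvec
  obtain ⟨a, ha1, ha2⟩ := exists_lift (sflag tu du) L1 injU O.U (fun u => O.Umem u)
  obtain ⟨w, hw1, hw2⟩ := exists_lift (sflag tw dw) L2 injW O.W (fun u => O.Wmem u)
  have uniqU : ∀ x ∈ sflag tu du, ∀ y ∈ sflag tu du, L1 x = L1 y → x = y := by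
    intro x hx y hy h
    exact sub_eq_zero.mp (injU (x - y) (Submodule.sub_mem _ hx hy) (by rw [map_sub, h, sub_self]))
  have uniqW : ∀ x ∈ sflag tw dw, ∀ y ∈ sflag tw dw, L2 x = L2 y → x = y := by
    intro x hx y hy h
    exact sub_eq_zero.mp (injW (x - y) (Submodule.sub_mem _ hx hy) (by rw [map_sub, h, sub_self]))
  -- coordinates
  have a1 : ∀ u (i : Fin m), pairL (m + 0 + q + g) (bern S T (m + 0 + q + g) i) (a u) =
      (Matrix.vecMul (fun i => (μ i : ℂ) * u i) (V.map (algebraMap ℝ ℂ))) i := by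
    intro u i
    rw [← P1_Lmap S T m q g 1 (a u) i, ← hL1, ha2, O.U1]
  have w1 : ∀ u (i : Fin m), pairL (m + 0 + q + g) (bern S T (m + 0 + q + g) i) (w u) =
      (Matrix.vecMul u (V.map (algebraMap ℝ ℂ))) i := by
    intro u i
    rw [← P1_Lmap S T m q g ((-1) ^ g) (w u) i, ← hL2, hw2, O.W1]
  have a3 : ∀ u (j : Fin q), pairL (m + 0 + q + g) (bern S T (m + 0 + q + g) (m + j + g)) (a u) =
      P3 ℂ m 0 q (O.U u) j := by
    intro u j
    have h2 := P3_Lmap S T m q g 1 (a u) j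
    rw [← hL1, ha2, Complex.ofReal_one, one_mul] at h2
    exact h2.symm
  have w3 : ∀ u (j : Fin q),
      sg * pairL (m + 0 + q + g) (bern S T (m + 0 + q + g) (m + j + g)) (w u) =
      P3 ℂ m 0 q (O.W u) j := by
    intro u j
    have h2 := P3_Lmap S T m q g ((-1) ^ g) (w u) j
    rw [← hL2, hw2, ← hsg] at h2
    exact h2.symm
  let b : (Fin m → ℂ) →ₗ[ℂ] (Fin (m + 0 + q + g) → ℂ) := (-sg) • w
  have hb : ∀ u, b u = (-sg) • w u := fun u => rfl
  let ν : Fin m → ℂ := fun i => sg * (μ i : ℂ)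
  have hsg0 : sg ≠ 0 := by
    rintro h4; rw [h4, zero_mul] at hsg2; exact zero_ne_one hsg2
  refine ⟨sub2 a b, Ypsi.good (Fv := sflag ts (q + g)) (Fa := sflag tu du) (Fb := sflag tw dw)
    (Fc := sflag tt (m + g))
    { a := a
      b := b
      μ := ν
      μ_inj := fun i j h => hμ (Complex.ofReal_injective (mul_left_cancel₀ hsg0 h))
      ha := ha1
      hb := fun u => Submodule.smul_mem _ _ (hw1 u)
      hc := fun u => by
        rw [memT]
        intro j
        rw [map_add, hb, map_smul, a3, O.UW, ← w3, smul_eq_mul]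
        ring
      hv := fun u => by
        rw [memS]
        intro i
        rw [map_add, hb, map_smul, a1, w1, smul_eq_mul]
        have h1 : Matrix.vecMul (mulμ ν u) (V.map (algebraMap ℝ ℂ)) i =
            sg * Matrix.vecMul (fun i => (μ i : ℂ) * u i) (V.map (algebraMap ℝ ℂ)) i := by
          have h2 : mulμ ν u = sg • (fun i => (μ i : ℂ) * u i) := by
            funext k
            rw [mulμ_apply, Pi.smul_apply, smul_eq_mul]
            ring
          rw [h2, Matrix.smul_vecMul]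
          rfl
        rw [h1]
        linear_combination (-Matrix.vecMul (fun i => (μ i : ℂ) * u i)
          (V.map (algebraMap ℝ ℂ)) i) * hsg2
      ib := fun u hu => by
        rw [memS] at hu
        refine vecMul_eq_zero hV ?_
        funext i
        have h1 := hu i
        rw [hb, map_smul, w1, smul_eq_mul] at h1
        rcases mul_eq_zero.mp h1 with h2 | h2
        · exact absurd (neg_eq_zero.mp h2) hsg0
        · exact h2
      complete := by
        intro fa hfa fb hfb hfc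
        rw [memT] at hfc
        obtain ⟨u, e1, e2⟩ := O.complete (L1 fa) ⟨fa, hfa, rfl⟩ (L2 ((-sg) • fb))
          ⟨(-sg) • fb, Submodule.smul_mem _ _ hfb, rfl⟩ (P2_zero _ _ _) (P2_zero _ _ _) (by
            funext j
            rw [hL1, hL2, P3_Lmap, P3_Lmap, ← hsg, map_smul, smul_eq_mul, Complex.ofReal_one,
              one_mul]
            have h1 := hfc j
            rw [map_add] at h1
            linear_combination h1 + (pairL (m + 0 + q + g) (bern S T (m + 0 + q + g)
              (m + j + g)) fb) * hsg2)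
        refine ⟨u, uniqU _ hfa _ (ha1 u) (by rw [e1, ha2]), ?_⟩
        have e3 : (-sg) • fb = w u :=
          uniqW _ (Submodule.smul_mem _ _ hfb) _ (hw1 u) (by rw [e2, hw2])
        rw [hb, ← e3, smul_smul, neg_mul_neg, hsg2, one_smul]
      ab := huw
      ac := hut
      bc := hwt }, fun S v hv => ?_⟩
  refine star_mem_sub2 (fun u => ?_) (fun u => ?_) S hv
  · refine uniqU _ (ha1 _) _ (sflag_star _ _ (ha1 _)) ?_
    have h1 : L1 (star (a u)) = star (L1 (a u)) := Lmap_star _ _ _ _ _ _ _ _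
    rw [h1, ha2, ha2, O.starU]
  · have h1 : w (star u) = star (w u) := by
      refine uniqW _ (hw1 _) _ (sflag_star _ _ (hw1 _)) ?_
      have h1 : L2 (star (w u)) = star (L2 (w u)) := Lmap_star _ _ _ _ _ _ _ _
      rw [h1, hw2, hw2, O.starW]
    rw [hb, hb, h1, star_smul, star_neg, hsgs]

end Pool.Agent.Quad4
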