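import Mathlib
import Pool.Agent.Quad4.Secant

/-!
# Four sorted secant flags with total dimension `2n`
-/

set_option autoImplicit false

namespace Pool.Agent.Quad4

open Module Pool.Agent.SignAlternation
open Pool.Agent.SecantPosition hiding pair

lemma inner_of_lt {S T U : ℕ → ℝ} (h1 : ∀ l j, T l < U j) (h2 : ∀ j k, U j < S k) :
    Inner S T U := by
  intro k l j
  have h3 := h1 l j
  have h4 := h2 j k
  exact ⟨div_pos (by linarith) (by linarith), div_pos (by linarith) (by linarith)⟩

lemma inner_of_gt {S T U : ℕ → ℝ} (h1 : ∀ k j, S k < U j) (h2 : ∀ j l, U j < T l) :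
    Inner S T U := by
  intro k l j
  have h3 := h1 k j
  have h4 := h2 j l
  exact ⟨div_pos_of_neg_of_neg (by linarith) (by linarith),
    div_pos_of_neg_of_neg (by linarith) (by linarith)⟩

lemma beyond_of_lt {S T W : ℕ → ℝ} (h1 : ∀ l k, T l < S k) (h2 : ∀ k j, S k < W j) :
    Beyond S T W := by
  intro k l j
  have h3 := h1 l k
  have h4 := h2 k j
  refine ⟨?_, div_pos (by linarith) (by linarith)⟩
  have : (S k - W j) / (S k - T l) < 0 := div_neg_of_neg_of_pos (by linarith) (by linarith)
  linarith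

lemma beyond_of_gt {S T W : ℕ → ℝ} (h1 : ∀ j k, W j < S k) (h2 : ∀ k l, S k < T l) :
    Beyond S T W := by
  intro k l j
  have h3 := h1 j k
  have h4 := h2 k l
  refine ⟨?_, div_pos_of_neg_of_neg (by linarith) (by linarith)⟩
  have : (S k - W j) / (S k - T l) < 0 := div_neg_of_pos_of_neg (by linarith) (by linarith)
  linarith

lemma inf_eq_bot {n : ℕ} (hn : 0 < n) {t : Fin 4 → Fin n → ℝ}
    (ht : ∀ j, Function.Injective (t j))
    (hdis : ∀ j j', j ≠ j' → (∀ a b, t j a < t j' b) ∨ (∀ a b, t j' a < t j b)) {d : Fin 4 → ℕ}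
    (hd : ∀ j, d j ≤ n) {i j : Fin 4} (hij : i ≠ j) (h : d i + d j ≤ n) :
    sflag (t i) (d i) ⊓ sflag (t j) (d j) = ⊥ := by
  have h1 := finrank_iInf_sflag hn ![t i, t j] (fun k => by
    fin_cases k
    · exact ht i
    · exact ht j) (fun k k' hk => by
    fin_cases k <;> fin_cases k'
    · exact absurd rfl hk
    · exact hdis i j hij
    · exact hdis j i hij.symm
    · exact absurd rfl hk) ![d i, d j] (fun k => by
    fin_cases k
    · exact hd i
    · exact hd j)
  have e : (⨅ k, sflag (![t i, t j] k) (![d i, d j] k)) =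
      sflag (t i) (d i) ⊓ sflag (t j) (d j) := by
    ext v
    simp [Submodule.mem_iInf, Fin.forall_fin_succ]
  rw [e, Fin.sum_univ_two] at h1
  apply Submodule.finrank_eq_zero.mp
  rw [h1]
  have h2 := hd i
  have h3 := hd j
  show n - ((n - d i) + (n - d j)) = 0
  omega

lemma nodes_eq {n : ℕ} (hn : 0 < n) (t : Fin n → ℝ) (a : Fin n) : nodes hn t a = t a :=
  nodes_lt hn t a.2

/-- The first type, in terms of dimensions. -/
theorem delta_case {n : ℕ} (hn : 0 < n) {t : Fin 4 → Fin n → ℝ}
    (ht : ∀ j, Function.Injective (t j))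
    (hdis : ∀ j j', j ≠ j' → (∀ a b, t j a < t j' b) ∨ (∀ a b, t j' a < t j b)) {d : Fin 4 → ℕ}
    {m : ℕ} (hd : ∀ j, m ≤ d j ∧ m + d j ≤ n) {v s u w : Fin 4} (hvs : v ≠ s) (hvu : v ≠ u)
    (hvw : v ≠ w) (hsum : d v + d s + d u + d w = 2 * n) (hv : d v = m)
    (hI : Inner (nodes hn (t s)) (nodes hn (t v)) (nodes hn (t u)))
    (hO : Outer (nodes hn (t s)) (nodes hn (t v)) (nodes hn (t w))) :
    GoodReal m {sflag (t v) (d v), sflag (t s) (d s), sflag (t w) (d w), sflag (t u) (d u)} := by
  have hdn : ∀ j, d j ≤ n := fun j => by have := (hd j).2; omega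
  have hus := hd s
  have huu := hd u
  have huw := hd w
  have i1 := inf_eq_bot hn ht hdis hdn hvs (by omega)
  have i2 := inf_eq_bot hn ht hdis hdn hvw (by omega)
  have i3 := inf_eq_bot hn ht hdis hdn hvu (by omega)
  obtain ⟨z, hz⟩ : ∃ z, n = m + z + d s := ⟨n - m - d s, by omega⟩
  subst hz
  rw [hv] at i1 i2 i3 ⊢
  have hST : ∀ k l, nodes hn (t s) k ≠ nodes hn (t v) l := fun k l => by
    rcases hdis s v hvs.symm with h | h
    · exact (h _ _).ne
    · exact (h _ _).ne'
  exact good_delta hST hI hO (fun a => nodes_eq hn _ a) (fun a => nodes_eq hn _ a)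
    (fun a => nodes_eq hn _ a) (fun a => nodes_eq hn _ a) (ht s) (ht v) (ht u) (ht w)
    (hdn u) (hdn w) (by omega) (by omega) (by omega) i1 i2 i3

/-- The second type, in terms of dimensions. -/
theorem ypsi_case {n : ℕ} (hn : 0 < n) {t : Fin 4 → Fin n → ℝ}
    (ht : ∀ j, Function.Injective (t j))
    (hdis : ∀ j j', j ≠ j' → (∀ a b, t j a < t j' b) ∨ (∀ a b, t j' a < t j b)) {d : Fin 4 → ℕ}
    {m : ℕ} (hd : ∀ j, m ≤ d j ∧ m + d j ≤ n) {v s u w : Fin 4} (hvs : v ≠ s) (huw : u ≠ w)
    (hus : u ≠ s) (hws : w ≠ s) (hsum : d v + d s + d u + d w = 2 * n) (hv : m + d v = n)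
    (hI : Inner (nodes hn (t v)) (nodes hn (t s)) (nodes hn (t u)))
    (hO : Outer (nodes hn (t v)) (nodes hn (t s)) (nodes hn (t w))) :
    GoodReal m {sflag (t v) (d v), sflag (t u) (d u), sflag (t w) (d w), sflag (t s) (d s)} := by
  have hdn : ∀ j, d j ≤ n := fun j => by have := (hd j).2; omega
  have h1 := hd s
  have h2 := hd u
  have h3 := hd w
  have i1 := inf_eq_bot hn ht hdis hdn huw (by omega)
  have i2 := inf_eq_bot hn ht hdis hdn hus (by omega)
  have i3 := inf_eq_bot hn ht hdis hdn hws (by omega)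
  obtain ⟨g, hg⟩ : ∃ g, d s = m + g := ⟨d s - m, by omega⟩
  obtain ⟨q, hq⟩ : ∃ q, n = m + 0 + q + g := ⟨n - m - g, by omega⟩
  subst hq
  have e1 : d v = q + g := by omega
  rw [hg] at i2 i3 ⊢
  rw [e1]
  have hST : ∀ k l, nodes hn (t v) k ≠ nodes hn (t s) l := fun k l => by
    rcases hdis v s hvs with h | h
    · exact (h _ _).ne
    · exact (h _ _).ne'
  exact good_ypsi hST hI hO (fun a => nodes_eq hn _ a) (fun a => nodes_eq hn _ a)
    (fun a => nodes_eq hn _ a) (fun a => nodes_eq hn _ a) (ht v) (ht s) (ht u) (ht w)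
    (hdn u) (hdn w) h2.1 h3.1 (by omega) i1 i2 i3

/-- **Four sorted secant flags with total dimension `2n`.** -/
theorem exists_good {n : ℕ} (hn : 0 < n) {t : Fin 4 → Fin n → ℝ}
    (ht : ∀ j, Function.Injective (t j)) (hord : ∀ j j', j < j' → ∀ a b, t j a < t j' b)
    {d : Fin 4 → ℕ} {m : ℕ} (hd : ∀ j, m ≤ d j ∧ m + d j ≤ n) (hsum : ∑ j, d j = 2 * n)
    (hv : ∃ v, d v = m ∨ m + d v = n) :
    GoodReal m (Set.range fun j => sflag (t j) (d j)) := by
  have hdis : ∀ j j', j ≠ j' → (∀ a b, t j a < t j' b) ∨ (∀ a b, t j' a < t j b) := by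
    intro j j' hne
    rcases lt_or_gt_of_ne hne with h | h
    · exact Or.inl (hord j j' h)
    · exact Or.inr fun a b => hord j' j h a b
  have hN : ∀ j j', j < j' → ∀ k l, nodes hn (t j) k < nodes hn (t j') l :=
    fun j j' h k l => hord j j' h _ _
  rw [Fin.sum_univ_four] at hsum
  have hrange : Set.range (fun j => sflag (t j) (d j)) = {sflag (t 0) (d 0), sflag (t 1) (d 1),
      sflag (t 2) (d 2), sflag (t 3) (d 3)} := by
    ext F
    simp only [Set.mem_range, Set.mem_insert_iff, Set.mem_singleton_iff, Fin.exists_fin_succ]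
    constructor
    · rintro (h | h | h | h | ⟨i, _⟩)
      · exact Or.inl h.symm
      · exact Or.inr (Or.inl h.symm)
      · exact Or.inr (Or.inr (Or.inl h.symm))
      · exact Or.inr (Or.inr (Or.inr h.symm))
      · exact i.elim0
    · rintro (h | h | h | h)
      · exact Or.inl h.symm
      · exact Or.inr (Or.inl h.symm)
      · exact Or.inr (Or.inr (Or.inl h.symm))
      · exact Or.inr (Or.inr (Or.inr (Or.inl h.symm)))
  rw [hrange]
  have I0 : Inner (nodes hn (t 2)) (nodes hn (t 0)) (nodes hn (t 1)) :=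
    inner_of_lt (hN 0 1 (by decide)) (hN 1 2 (by decide))
  have I0' : Inner (nodes hn (t 0)) (nodes hn (t 2)) (nodes hn (t 1)) :=
    inner_of_gt (hN 0 1 (by decide)) (hN 1 2 (by decide))
  have O0 : Beyond (nodes hn (t 2)) (nodes hn (t 0)) (nodes hn (t 3)) :=
    beyond_of_lt (hN 0 2 (by decide)) (hN 2 3 (by decide))
  have I1 : Inner (nodes hn (t 3)) (nodes hn (t 1)) (nodes hn (t 2)) :=
    inner_of_lt (hN 1 2 (by decide)) (hN 2 3 (by decide))
  have I1' : Inner (nodes hn (t 1)) (nodes hn (t 3)) (nodes hn (t 2)) :=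
    inner_of_gt (hN 1 2 (by decide)) (hN 2 3 (by decide))
  have O1 : Beyond (nodes hn (t 1)) (nodes hn (t 3)) (nodes hn (t 0)) :=
    beyond_of_gt (hN 0 1 (by decide)) (hN 1 3 (by decide))
  obtain ⟨v, hv⟩ := hv
  rcases hv with hv | hv
  · fin_cases v
    · have h := delta_case hn ht hdis hd (v := 0) (s := 2) (u := 1) (w := 3) (by decide)
        (by decide) (by decide) (by omega) hv I0 (Or.inl O0)
      convert h using 1
      ext F; simp only [Set.mem_insert_iff, Set.mem_singleton_iff]; tauto
    · have h := delta_case hn ht hdis hd (v := 1) (s := 3) (u := 2) (w := 0) (by decide)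
        (by decide) (by decide) (by omega) hv I1 (Or.inr O1)
      convert h using 1
      ext F; simp only [Set.mem_insert_iff, Set.mem_singleton_iff]; tauto
    · have h := delta_case hn ht hdis hd (v := 2) (s := 0) (u := 1) (w := 3) (by decide)
        (by decide) (by decide) (by omega) hv I0' (Or.inr O0)
      convert h using 1
      ext F; simp only [Set.mem_insert_iff, Set.mem_singleton_iff]; tauto
    · have h := delta_case hn ht hdis hd (v := 3) (s := 1) (u := 2) (w := 0) (by decide)
        (by decide) (by decide) (by omega) hv I1' (Or.inl O1)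
      convert h using 1
      ext F; simp only [Set.mem_insert_iff, Set.mem_singleton_iff]; tauto
  · fin_cases v
    · have h := ypsi_case hn ht hdis hd (v := 0) (s := 2) (u := 1) (w := 3) (by decide)
        (by decide) (by decide) (by decide) (by omega) hv I0' (Or.inr O0)
      convert h using 1
      ext F; simp only [Set.mem_insert_iff, Set.mem_singleton_iff]; tauto
    · have h := ypsi_case hn ht hdis hd (v := 1) (s := 3) (u := 2) (w := 0) (by decide)
        (by decide) (by decide) (by decide) (by omega) hv I1' (Or.inl O1)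
      convert h using 1
      ext F; simp only [Set.mem_insert_iff, Set.mem_singleton_iff]; tauto
    · have h := ypsi_case hn ht hdis hd (v := 2) (s := 0) (u := 1) (w := 3) (by decide)
        (by decide) (by decide) (by decide) (by omega) hv I0 (Or.inl O0)
      convert h using 1
      ext F; simp only [Set.mem_insert_iff, Set.mem_singleton_iff]; tauto
    · have h := ypsi_case hn ht hdis hd (v := 3) (s := 1) (u := 2) (w := 0) (by decide)
        (by decide) (by decide) (by decide) (by omega) hv I1 (Or.inr O1)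
      convert h using 1
      ext F; simp only [Set.mem_insert_iff, Set.mem_singleton_iff]; tauto

end Pool.Agent.Quad4
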